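import Pool.Agent.Helper92.Germ.B7

/-!
R7 `exists_beta` of MP_91c48b_an.
-/

open Filter Topology Set

namespace Pool.Agent.Germ.Beta

section
variable {P : ℕ → ℝ → ℝ} {J : ℕ → Finset ℝ} {r ε : ℕ → ℝ}

theorem Data.exact (D : Data P J r ε) {κ : ℕ → ℕ} (hκ0 : κ 0 = 0) (hκ : StrictMono κ)
    {Pb : ℕ → ℝ → ℝ} (hP : ∀ k, P k = Pb (idx κ k)) (s : ℕ) (c : ℝ) :
    ∀ᶠ u in atTop,
      (∀ k, ∀ p ∈ J k, ¬ (2 ^ k * (p - r k) ≤ u ∧ u ≤ 2 ^ k * (p + r k))) →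
      (∀ m, ¬ ((2 : ℝ) ^ κ m ≤ u ∧ u ≤ 2 ^ (κ m + s))) →
      ∃ p q : ℝ, p ≠ 0 ∧ ∀ x, |x - u| ≤ c → glue P x = p * x + q ∧
        glue P (x / 2 ^ s) = 2 ^ s * (p * x + q) := by
  set c' := max c 1 with hc'
  have hc'1 : 1 ≤ c' := le_max_right _ _
  have heps : ∀ᶠ k in atTop, ε k < 1 / 8 := D.eps.eventually (Iio_mem_nhds (by norm_num))
  filter_upwards [ev_lg (D.room c'), ev_lg heps, eventually_ge_atTop (1 : ℝ),
    eventually_ge_atTop ((2 : ℝ) ^ s)] with u hroom hek hu1 hus hJ hm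
  have hs := lg_spec hu1
  have hv := v_mem hu1
  obtain ⟨hsk, -⟩ := lg_div hus
  set k := lg u with hk
  have hX : (0 : ℝ) < 2 ^ k := by positivity
  have hpk1 : (2 : ℝ) ^ (k + 1) = 2 * 2 ^ k := by ring
  set m := idx κ k with hmdef
  have h1 : κ m ≤ k := idx_le hκ0 k
  have h2 : k < κ (m + 1) := lt_idx_succ hκ k
  have h3 : κ m + s ≤ k := by
    by_contra hcon
    push Not at hcon
    apply hm m
    refine ⟨(pow_le_pow_right₀ (by norm_num) h1).trans hs.1, ?_⟩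
    exact hs.2.le.trans (pow_le_pow_right₀ (by norm_num) hcon)
  have h4 : idx κ (k - s) = m := idx_eq hκ0 hκ (by omega) (by omega)
  have hPP : P (k - s) = P k := by rw [hP, hP, h4]
  have hr0 := D.rpos k
  have hr1 : r (k + 1) ≤ r k := D.anti (by omega)
  have hr2 : r (k + 1) ≤ r (k - s + 1) := D.anti (by omega)
  have hck : c' ≤ 2 ^ k * r k / 2 := hroom.trans (by gcongr)
  -- the affine piece
  obtain ⟨α, γ, hαγ⟩ := (D.good k).aff ((u - c') / 2 ^ k) ((u + c') / 2 ^ k) (fun p hp => by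
    have h5 := hJ k p hp
    by_cases h6 : 2 ^ k * (p - r k) ≤ u
    · have h7 : ¬ u ≤ 2 ^ k * (p + r k) := fun h => h5 ⟨h6, h⟩
      push Not at h7
      right
      rw [le_div_iff₀ hX]
      nlinarith
    · push Not at h6
      left
      rw [div_le_iff₀ hX]
      nlinarith)
  -- the slope is nonzero
  have hα : α ≠ 0 := by
    have hev : P k =ᶠ[𝓝 (u / 2 ^ k)] fun x => α * x + γ := by
      have hmem : Ioo ((u - c') / 2 ^ k) ((u + c') / 2 ^ k) ∈ 𝓝 (u / 2 ^ k) := by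
        apply Ioo_mem_nhds
        · gcongr; linarith
        · gcongr; linarith
      filter_upwards [hmem] with x hx
      exact hαγ x hx.1.le hx.2.le
    have hd : deriv (P k) (u / 2 ^ k) = α := by
      rw [hev.deriv_eq]
      have : HasDerivAt (fun x : ℝ => α * x + γ) (α * 1) (u / 2 ^ k) :=
        ((hasDerivAt_id (u / 2 ^ k)).const_mul α).add_const γ
      rw [this.deriv, mul_one]
    have hc := (D.good k).close1 _ hv.1 hv.2
    rw [hd] at hc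
    intro h0
    rw [h0, zero_add] at hc
    have hv0 : 0 < u / 2 ^ k := by linarith [hv.1]
    rw [abs_of_pos (by positivity)] at hc
    have h8 : (1 : ℝ) / 4 ≤ 1 / (u / 2 ^ k) ^ 2 := by
      rw [div_le_div_iff₀ (by norm_num) (by positivity)]
      nlinarith [hv.1, hv.2]
    linarith
  refine ⟨α / 4 ^ k, γ / 2 ^ k, by positivity, fun x hx => ?_⟩
  have hx' := abs_le.1 (hx.trans (le_max_left c 1) : |x - u| ≤ c')
  have e1 : glue P x = P k (x / 2 ^ k) / 2 ^ k :=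
    D.formula k (Or.inr (by linarith [hx'.1, hs.1])) (by linarith [hx'.2, hs.2])
  have e2 : glue P (x / 2 ^ s) = P (k - s) (x / 2 ^ s / 2 ^ (k - s)) / 2 ^ (k - s) := by
    have h2s : (0 : ℝ) < 2 ^ s := by positivity
    have hk' : (2 : ℝ) ^ k = 2 ^ (k - s) * 2 ^ s := by rw [← pow_add, Nat.sub_add_cancel hsk]
    have hk'' : (2 : ℝ) ^ (k + 1) = 2 ^ (k - s + 1) * 2 ^ s := by
      rw [← pow_add]; congr 1; omega
    have h9 : c' ≤ 2 ^ (k - s) * r (k - s + 1) / 2 * 2 ^ s := by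
      calc c' ≤ 2 ^ k * r (k + 1) / 2 := hroom
        _ ≤ 2 ^ k * r (k - s + 1) / 2 := by gcongr
        _ = 2 ^ (k - s) * r (k - s + 1) / 2 * 2 ^ s := by rw [hk']; ring
    apply D.formula
    · right
      rw [← sub_le_iff_le_add, le_div_iff₀ h2s, sub_mul, ← hk']
      linarith [hx'.1, hs.1]
    · rw [div_le_iff₀ h2s, add_mul, ← hk'']
      linarith [hx'.2, hs.2]
  have e3 : x / 2 ^ s / 2 ^ (k - s) = x / 2 ^ k := by
    rw [div_div, ← pow_add, show s + (k - s) = k by omega]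
  have e4 : P k (x / 2 ^ k) = α * (x / 2 ^ k) + γ := hαγ _ (by gcongr; linarith [hx'.1])
    (by gcongr; linarith [hx'.2])
  have h4k : (4 : ℝ) ^ k = 2 ^ k * 2 ^ k := by rw [← mul_pow]; norm_num
  constructor
  · rw [e1, e4, h4k]; field_simp
  · rw [e2, e3, hPP, e4, h4k]
    have hk' : (2 : ℝ) ^ k = 2 ^ (k - s) * 2 ^ s := by rw [← pow_add, Nat.sub_add_cancel hsk]
    rw [hk']; field_simp

end

/-- separation of the joints of the glued function -/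
theorem sep_final {κ : ℕ → ℕ} (hκ0 : κ 0 = 0) (hκ : StrictMono κ)
    (hgap : ∀ m, m + 1 ≤ κ (m + 1) - κ m) {Jb : ℕ → Finset ℝ} {rb : ℕ → ℝ}
    (hj : ∀ m, ∀ p ∈ Jb m, 1 < p - 20 * rb m ∧ p + 20 * rb m < 2)
    (hsep : ∀ M : ℕ, ∀ᶠ m in atTop, ∀ a b, (a = m ∨ a = m + 1) → (b = m ∨ b = m + 1) →
      ∀ p ∈ Jb a, ∀ p' ∈ Jb b, ∀ i j l : ℤ, |i| ≤ M → |j| ≤ M → ∀ y y' : ℝ,
        |y - p| ≤ 20 * rb a → |y' - p'| ≤ 20 * rb b → (3 : ℝ) ^ i * 2 ^ l * y = 5 ^ j * y' →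
        i = 0 ∧ j = 0 ∧ l = 0 ∧ p = p') (M : ℕ) :
    ∃ K : ℕ, ∀ k k' : ℕ, K ≤ k → K ≤ k' → ∀ p ∈ Jb (idx κ k), ∀ p' ∈ Jb (idx κ k'), ∀ i j : ℤ,
      |i| ≤ M → |j| ≤ M → ∀ x : ℝ,
        (3 : ℝ) ^ i * (2 ^ k * (p - 20 * rb (idx κ k))) ≤ x →
        x ≤ (3 : ℝ) ^ i * (2 ^ k * (p + 20 * rb (idx κ k))) →
        (5 : ℝ) ^ j * (2 ^ k' * (p' - 20 * rb (idx κ k'))) ≤ x →
        x ≤ (5 : ℝ) ^ j * (2 ^ k' * (p' + 20 * rb (idx κ k'))) → i = 0 ∧ j = 0 ∧ k = k' ∧ p = p' := by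
  obtain ⟨m0, hm0⟩ := eventually_atTop.1 (hsep M)
  set m1 := max m0 (4 * M + 2) with hm1
  refine ⟨κ m1, fun k k' hk hk' p hp p' hp' i j hi hj' x hx1 hx2 hx3 hx4 => ?_⟩
  have h3i : (0 : ℝ) < 3 ^ i := by positivity
  have h5j : (0 : ℝ) < 5 ^ j := by positivity
  have h2k : (0 : ℝ) < 2 ^ k := by positivity
  have h2k' : (0 : ℝ) < 2 ^ k' := by positivity
  set a := idx κ k with ha
  set b := idx κ k' with hb
  set y := x / (3 ^ i * 2 ^ k) with hy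
  set y' := x / (5 ^ j * 2 ^ k') with hy'
  have hya : |y - p| ≤ 20 * rb a := by
    rw [abs_le, hy]
    constructor
    · rw [neg_le_sub_iff_le_add, ← sub_le_iff_le_add, le_div_iff₀ (by positivity)]
      linarith
    · rw [sub_le_iff_le_add, div_le_iff₀ (by positivity)]
      linarith
  have hyb : |y' - p'| ≤ 20 * rb b := by
    rw [abs_le, hy']
    constructor
    · rw [neg_le_sub_iff_le_add, ← sub_le_iff_le_add, le_div_iff₀ (by positivity)]
      linarith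
    · rw [sub_le_iff_le_add, div_le_iff₀ (by positivity)]
      linarith
  have heq : (3 : ℝ) ^ i * 2 ^ ((k : ℤ) - k') * y = 5 ^ j * y' := by
    rw [hy, hy', zpow_sub₀ (by norm_num), zpow_natCast, zpow_natCast]
    field_simp
  have hj1 := hj a p hp
  have hj2 := hj b p' hp'
  have hya' := abs_le.1 hya
  have hyb' := abs_le.1 hyb
  have hbl := bound_l hi hj' (y := y) (y' := y') (by linarith) (by linarith) (by linarith)
    (by linarith) heq
  have hma : m1 ≤ a := le_idx hκ hk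
  have hmb : m1 ≤ b := le_idx hκ hk'
  have ha1 : κ a ≤ k := idx_le hκ0 k
  have ha2 : k < κ (a + 1) := lt_idx_succ hκ k
  have hb1 : κ b ≤ k' := idx_le hκ0 k'
  have hb2 : k' < κ (b + 1) := lt_idx_succ hκ k'
  have hm1' : 4 * M + 2 ≤ m1 := le_max_right _ _
  have hm0' : m0 ≤ m1 := le_max_left _ _
  -- adjacency
  have hadj : ∀ a b k k' : ℕ, m1 ≤ b → κ a ≤ k → k' < κ (b + 1) →
      (k : ℤ) ≤ k' + (4 * M + 1) → a ≤ b + 1 := by
    intro a b k k' hb h1 h2 h3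
    by_contra hcon
    push Not at hcon
    have h4 : κ (b + 2) ≤ κ a := hκ.monotone (by omega)
    have h5 := hgap (b + 1)
    have h6 : κ (b + 1) < κ (b + 2) := hκ (by omega)
    have h7 : b + 1 + 1 ≤ κ (b + 2) - κ (b + 1) := h5
    omega
  have hab : a ≤ b + 1 := hadj a b k k' hmb ha1 hb2 (by linarith [hbl.2])
  have hba : b ≤ a + 1 := hadj b a k' k hma hb1 ha2 (by linarith [hbl.1])
  have hkey : i = 0 ∧ j = 0 ∧ ((k : ℤ) - k' = 0) ∧ p = p' := by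
    refine hm0 (min a b) (by have := le_min hma hmb; omega) a b ?_ ?_ p hp p' hp' i j
      ((k : ℤ) - k') hi hj' y y' hya hyb heq
    · rcases le_total a b with h | h
      · left; rw [min_eq_left h]
      · rw [min_eq_right h]; omega
    · rcases le_total a b with h | h
      · rw [min_eq_left h]; omega
      · left; rw [min_eq_right h]
  exact ⟨hkey.1, hkey.2.1, by have := hkey.2.2.1; omega, hkey.2.2.2⟩

end Beta

/-- There are: a smooth function `β`, a block structure `κ`, finite sets `J k ⊂ (1,2)` of joint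
positions, radii `r k`. -/
theorem exists_beta : ∃ (β : ℝ → ℝ) (κ : ℕ → ℕ) (J : ℕ → Finset ℝ) (r : ℕ → ℝ),
    ContDiff ℝ 8 β ∧ Sy 7 (-1 + 1/8) β ∧
    Tendsto (fun u => u * β u) atTop (𝓝 1) ∧ Tendsto (fun u => u ^ 2 * deriv β u) atTop (𝓝 (-1)) ∧
    (∃ L, Tendsto (fun u => (∫ v in (1:ℝ)..u, β v) - Real.log u) atTop (𝓝 L)) ∧
    -- block structure
    StrictMono κ ∧ Tendsto (fun m => κ (m + 1) - κ m) atTop atTop ∧
    (∀ k, ∀ p ∈ J k, 1 < p - 20 * r k ∧ p + 20 * r k < 2) ∧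
    (∀ᶠ k : ℕ in atTop, (2 : ℝ) ^ (-(k : ℝ) / 8) ≤ r k) ∧ (∀ k, 0 < r k) ∧
    -- exactness off the bad sets
    (∀ (s : ℕ) (c : ℝ), ∀ᶠ u in atTop,
      (∀ k, ∀ p ∈ J k, ¬ (2 ^ k * (p - r k) ≤ u ∧ u ≤ 2 ^ k * (p + r k))) →
      (∀ m, ¬ ((2 : ℝ) ^ κ m ≤ u ∧ u ≤ 2 ^ (κ m + s))) →
      ∃ p q : ℝ, p ≠ 0 ∧ ∀ x, |x - u| ≤ c → β x = p * x + q ∧
        β (x / 2 ^ s) = 2 ^ s * (p * x + q)) ∧
    -- the defect of homogeneity
    (∀ s : ℕ, So 4 (-1) (fun u => 4 ^ s * β u - 2 ^ s * β (u / 2 ^ s)) ∧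
      ∀ᶠ u in atTop, (∀ m, ¬ ((2 : ℝ) ^ κ m < u ∧ u < 2 ^ (κ m + s))) →
        4 ^ s * β u - 2 ^ s * β (u / 2 ^ s) = 0) ∧
    -- separation of the joints under multiplication by `3^i` and `5^j`
    (∀ M : ℕ, ∃ K : ℕ, ∀ k k' : ℕ, K ≤ k → K ≤ k' → ∀ p ∈ J k, ∀ p' ∈ J k', ∀ i j : ℤ,
      |i| ≤ M → |j| ≤ M → ∀ x : ℝ,
        (3 : ℝ) ^ i * (2 ^ k * (p - 20 * r k)) ≤ x → x ≤ (3 : ℝ) ^ i * (2 ^ k * (p + 20 * r k)) →
        (5 : ℝ) ^ j * (2 ^ k' * (p' - 20 * r k')) ≤ x →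
        x ≤ (5 : ℝ) ^ j * (2 ^ k' * (p' + 20 * r k')) → i = 0 ∧ j = 0 ∧ k = k' ∧ p = p') := by
  open Beta in
  obtain ⟨Pb, Jb, rb, εb, hgood, hr0, hr1, hanti, heps, hjoint, hslow, hsep⟩ := exists_blocks
  -- thresholds
  have hthr : ∀ m : ℕ, ∃ f : ℕ, ∀ k : ℕ, f ≤ k → 1 / rb m ≤ (2 : ℝ) ^ ((k : ℝ) / 8) ∧
      ∀ i ≤ 7, ∀ v, 1 ≤ v → v ≤ 2 → |iteratedDeriv i (Pb m) v| ≤ (2 : ℝ) ^ ((k : ℝ) / 8) := by
    intro m
    obtain ⟨C, hC, hCb⟩ := exists_iter_bound (hgood m).smooth 7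
    have ht : Tendsto (fun k : ℕ => (2 : ℝ) ^ ((k : ℝ) / 8)) atTop atTop := by
      apply (tendsto_rpow_atTop_of_base_gt_one 2 one_lt_two).comp
      exact tendsto_natCast_atTop_atTop.atTop_div_const (by norm_num)
    obtain ⟨f, hf⟩ := eventually_atTop.1 (ht.eventually_ge_atTop (max (1 / rb m) C))
    exact ⟨f, fun k hk => ⟨(le_max_left _ _).trans (hf k hk),
      fun i hi v hv hv' => (hCb i hi v hv hv').trans ((le_max_right _ _).trans (hf k hk))⟩⟩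
  choose f hf using hthr
  set κ : ℕ → ℕ := fun m => ∑ i ∈ Finset.range m, (f (i + 1) + i + 1) with hκdef
  have hκ0 : κ 0 = 0 := by simp [hκdef]
  have hκs : ∀ m, κ (m + 1) = κ m + (f (m + 1) + m + 1) := fun m => by
    simp [hκdef, Finset.sum_range_succ]
  have hκ : StrictMono κ := strictMono_nat_of_lt_succ fun m => by rw [hκs]; omega
  have hκf : ∀ m, 1 ≤ m → f m ≤ κ m := by
    intro m hm
    obtain ⟨m', rfl⟩ : ∃ m', m = m' + 1 := ⟨m - 1, by omega⟩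
    rw [hκs]; omega
  have hidx : Tendsto (idx κ) atTop atTop := idx_tendsto hκ
  have hbigk : ∀ᶠ k in atTop, f (idx κ k) ≤ k := by
    filter_upwards [hidx.eventually_ge_atTop 1] with k hk
    exact (hκf _ hk).trans (idx_le hκ0 k)
  have D : Data (fun k => Pb (idx κ k)) (fun k => Jb (idx κ k)) (fun k => rb (idx κ k))
      (fun k => εb (idx κ k)) := by
    refine ⟨fun k => hgood _, fun k => hr0 _, fun k => hr1 _, fun a b hab => ?_, heps.comp hidx,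
      fun k => hjoint _, ?_, ?_, ?_⟩
    · exact hanti (idx_mono hκ0 hκ hab)
    · filter_upwards [hbigk] with k hk
      exact (hf _ k hk).1
    · filter_upwards [hbigk] with k hk
      exact (hf _ k hk).2
    · intro δ hδ
      filter_upwards [hidx.eventually (hslow δ hδ)] with k hk i hi v hv hv'
      rcases idx_succ hκ0 hκ k with ⟨_, h2⟩ | ⟨_, h2⟩
      · rw [h2]; simp [hδ.le]
      · rw [h2]; exact hk i hi v hv hv'
  refine ⟨glue (fun k => Pb (idx κ k)), κ, fun k => Jb (idx κ k), fun k => rb (idx κ k), ?_, D.sy,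
    D.lim0, D.lim1, D.int_lim, hκ, ?_, D.joints, ?_, D.rpos, ?_, ?_, ?_⟩
  · have := D.contDiff.of_le (nat_le_infty 8)
    exact_mod_cast this
  · rw [tendsto_atTop]
    intro m
    filter_upwards [eventually_ge_atTop m] with k hk
    rw [hκs]; omega
  · filter_upwards [D.rbig] with k hk
    have hr := D.rpos k
    rw [neg_div, Real.rpow_neg (by norm_num), inv_le_comm₀ (by positivity) hr, inv_eq_one_div]
    exact hk
  · intro s c
    exact D.exact hκ0 hκ (Pb := Pb) (fun k => rfl) s c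
  · intro s
    exact ⟨D.so s, D.defect_zero hκ0 hκ (Pb := Pb) (fun k => rfl) s⟩
  · intro M
    exact sep_final hκ0 hκ (fun m => by rw [hκs]; omega) hjoint hsep M

end Pool.Agent.Germ
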