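import Pool.Agent.Helper19.Germ.Defs

/-!
Smoothed piecewise affine functions (for R7 `exists_beta` of MP_91c48b_an).
-/

open Filter Topology Set

namespace Pool.Agent.Germ.Beta

/-- smoothed positive part -/
noncomputable def R (x : ℝ) : ℝ := x * Real.smoothTransition ((x + 1) / 2)

lemma R_contDiff : ContDiff ℝ ((⊤ : ℕ∞) : WithTop ℕ∞) R := by
  unfold R
  apply ContDiff.mul contDiff_id
  exact Real.smoothTransition.contDiff.comp ((contDiff_id.add contDiff_const).div_const _)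

lemma R_of_le {x : ℝ} (h : x ≤ -1) : R x = 0 := by
  unfold R
  rw [Real.smoothTransition.zero_of_nonpos (by linarith), mul_zero]

lemma R_of_ge {x : ℝ} (h : 1 ≤ x) : R x = x := by
  unfold R
  rw [Real.smoothTransition.one_of_one_le (by linarith), mul_one]

lemma R_abs_le (x : ℝ) : |R x| ≤ |x| := by
  unfold R
  rw [abs_mul]
  have h0 := Real.smoothTransition.nonneg ((x + 1) / 2)
  have h1 := Real.smoothTransition.le_one ((x + 1) / 2)
  rw [abs_of_nonneg h0]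
  exact mul_le_of_le_one_right (abs_nonneg x) h1

lemma R_sub_max (x : ℝ) : |R x - max x 0| ≤ 1 := by
  rcases le_total x (-1) with h | h
  · rw [R_of_le h, max_eq_right (by linarith)]; norm_num
  rcases le_total 1 x with h' | h'
  · rw [R_of_ge h', max_eq_left (by linarith)]; norm_num
  · unfold R
    have h0 := Real.smoothTransition.nonneg ((x + 1) / 2)
    have h1 := Real.smoothTransition.le_one ((x + 1) / 2)
    set t := Real.smoothTransition ((x + 1) / 2)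
    rcases le_total x 0 with h2 | h2
    · rw [max_eq_right h2, abs_le]
      constructor <;> nlinarith
    · rw [max_eq_left h2, abs_le]
      constructor <;> nlinarith

lemma R_diff : Differentiable ℝ R := R_contDiff.differentiable (by simp)

lemma R_deriv_of_lt {x : ℝ} (h : x < -1) : deriv R x = 0 := by
  have : R =ᶠ[𝓝 x] fun _ => 0 := by
    filter_upwards [Iio_mem_nhds h] with y hy
    exact R_of_le (le_of_lt hy)
  rw [this.deriv_eq, deriv_const]

lemma R_deriv_of_gt {x : ℝ} (h : 1 < x) : deriv R x = 1 := by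
  have : R =ᶠ[𝓝 x] fun y => y := by
    filter_upwards [Ioi_mem_nhds h] with y hy
    exact R_of_ge (le_of_lt hy)
  rw [this.deriv_eq, deriv_id'']

lemma R_deriv_cont : Continuous (deriv R) := R_contDiff.continuous_deriv (by simp)

lemma R_deriv_of_le {x : ℝ} (h : x ≤ -1) : deriv R x = 0 := by
  rcases h.lt_or_eq with h | h
  · exact R_deriv_of_lt h
  · subst h
    have hc : Tendsto (deriv R) (𝓝[<] (-1)) (𝓝 (deriv R (-1))) :=
      (R_deriv_cont.tendsto (-1)).mono_left nhdsWithin_le_nhds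
    have h0 : Tendsto (deriv R) (𝓝[<] (-1)) (𝓝 0) := by
      refine tendsto_const_nhds.congr' ?_
      filter_upwards [self_mem_nhdsWithin] with y hy
      exact (R_deriv_of_lt hy).symm
    exact tendsto_nhds_unique hc h0

lemma R_deriv_of_ge {x : ℝ} (h : 1 ≤ x) : deriv R x = 1 := by
  rcases h.lt_or_eq with h | h
  · exact R_deriv_of_gt h
  · subst h
    have hc : Tendsto (deriv R) (𝓝[>] 1) (𝓝 (deriv R 1)) :=
      (R_deriv_cont.tendsto 1).mono_left nhdsWithin_le_nhds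
    have h0 : Tendsto (deriv R) (𝓝[>] 1) (𝓝 1) := by
      refine tendsto_const_nhds.congr' ?_
      filter_upwards [self_mem_nhdsWithin] with y hy
      exact (R_deriv_of_gt hy).symm
    exact tendsto_nhds_unique hc h0

lemma exists_deriv_bound : ∃ C : ℝ, 1 ≤ C ∧ ∀ x, |deriv R x| ≤ C := by
  obtain ⟨C, hC⟩ := isCompact_Icc.exists_bound_of_continuousOn
    (R_deriv_cont.continuousOn (s := Icc (-1 : ℝ) 1))
  refine ⟨max C 1, le_max_right _ _, fun x => ?_⟩
  rcases le_total x (-1) with h | h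
  · rw [R_deriv_of_le h]; simp
  rcases le_total 1 x with h' | h'
  · rw [R_deriv_of_ge h']; simp
  · have := hC x ⟨h, h'⟩
    rw [Real.norm_eq_abs] at this
    exact this.trans (le_max_left _ _)

/-- the bound for `deriv R` -/
noncomputable def CR : ℝ := Classical.choose exists_deriv_bound

lemma one_le_CR : 1 ≤ CR := (Classical.choose_spec exists_deriv_bound).1
lemma R_deriv_abs_le (x : ℝ) : |deriv R x| ≤ CR := (Classical.choose_spec exists_deriv_bound).2 x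

/-- smoothed `(x-p)⁺` with smoothing radius `ρ` -/
noncomputable def Rp (ρ p x : ℝ) : ℝ := ρ * R ((x - p) / ρ)

lemma Rp_contDiff (ρ p : ℝ) : ContDiff ℝ ((⊤ : ℕ∞) : WithTop ℕ∞) (Rp ρ p) := by
  unfold Rp
  exact contDiff_const.mul (R_contDiff.comp ((contDiff_id.sub contDiff_const).div_const _))

lemma Rp_of_le {ρ p x : ℝ} (hρ : 0 < ρ) (h : x ≤ p - ρ) : Rp ρ p x = 0 := by
  unfold Rp
  rw [R_of_le, mul_zero]
  rw [div_le_iff₀ hρ]; linarith

lemma Rp_of_ge {ρ p x : ℝ} (hρ : 0 < ρ) (h : p + ρ ≤ x) : Rp ρ p x = x - p := by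
  unfold Rp
  rw [R_of_ge]
  · field_simp
  · rw [le_div_iff₀ hρ]; linarith

lemma Rp_abs_le {ρ p x : ℝ} (hρ : 0 < ρ) : |Rp ρ p x| ≤ |x - p| := by
  unfold Rp
  rw [abs_mul, abs_of_pos hρ]
  calc ρ * |R ((x - p) / ρ)| ≤ ρ * |(x - p) / ρ| := mul_le_mul_of_nonneg_left (R_abs_le _) hρ.le
    _ = |x - p| := by rw [abs_div, abs_of_pos hρ]; field_simp

lemma Rp_sub_max {ρ p x : ℝ} (hρ : 0 < ρ) : |Rp ρ p x - max (x - p) 0| ≤ ρ := by
  unfold Rp
  have h1 : max (x - p) 0 = ρ * max ((x - p) / ρ) 0 := by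
    rw [mul_max_of_nonneg _ _ hρ.le, mul_zero]
    congr 1
    field_simp
  rw [h1, ← mul_sub, abs_mul, abs_of_pos hρ]
  exact mul_le_of_le_one_right hρ.le (R_sub_max _)

lemma Rp_deriv {ρ p : ℝ} (hρ : 0 < ρ) (x : ℝ) : deriv (Rp ρ p) x = deriv R ((x - p) / ρ) := by
  unfold Rp
  have h1 : HasDerivAt (fun x : ℝ => (x - p) / ρ) (1 / ρ) x :=
    ((hasDerivAt_id x).sub_const p).div_const ρ
  have h2 : HasDerivAt R (deriv R ((x - p) / ρ)) ((x - p) / ρ) := (R_diff _).hasDerivAt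
  have h3 := (HasDerivAt.comp x h2 h1).const_mul ρ
  have h4 : deriv (fun x => ρ * R ((x - p) / ρ)) x = ρ * (deriv R ((x - p) / ρ) * (1 / ρ)) := h3.deriv
  rw [h4]
  field_simp

lemma Rp_diff (ρ p : ℝ) : Differentiable ℝ (Rp ρ p) := (Rp_contDiff ρ p).differentiable (by simp)

lemma Rp_deriv_abs_le {ρ p : ℝ} (hρ : 0 < ρ) (x : ℝ) : |deriv (Rp ρ p) x| ≤ CR := by
  rw [Rp_deriv hρ]; exact R_deriv_abs_le _

lemma Rp_deriv_of_le {ρ p x : ℝ} (hρ : 0 < ρ) (h : x ≤ p - ρ) : deriv (Rp ρ p) x = 0 := by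
  rw [Rp_deriv hρ, R_deriv_of_le]
  rw [div_le_iff₀ hρ]; linarith

lemma Rp_deriv_of_ge {ρ p x : ℝ} (hρ : 0 < ρ) (h : p + ρ ≤ x) : deriv (Rp ρ p) x = 1 := by
  rw [Rp_deriv hρ, R_deriv_of_ge]
  rw [le_div_iff₀ hρ]; linarith

/-! ### Functions affine off a set of joints -/

/-- `P` is affine on every interval which avoids all `(p-ρ, p+ρ)`, `p ∈ J`. -/
def AffOff (J : Finset ℝ) (ρ : ℝ) (P : ℝ → ℝ) : Prop :=
  ∀ a b : ℝ, (∀ p ∈ J, b ≤ p - ρ ∨ p + ρ ≤ a) → ∃ α γ : ℝ, ∀ x, a ≤ x → x ≤ b → P x = α * x + γ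

lemma AffOff.mono {J J' : Finset ℝ} {ρ ρ' : ℝ} {P : ℝ → ℝ} (h : AffOff J ρ P) (hJ : J ⊆ J')
    (hρ : ρ ≤ ρ') : AffOff J' ρ' P := by
  intro a b hab
  refine h a b fun p hp => ?_
  rcases hab p (hJ hp) with h1 | h1
  · left; linarith
  · right; linarith

lemma AffOff.add {J : Finset ℝ} {ρ : ℝ} {P P' : ℝ → ℝ} (h : AffOff J ρ P) (h' : AffOff J ρ P') :
    AffOff J ρ (fun x => P x + P' x) := by
  intro a b hab
  obtain ⟨α, γ, h1⟩ := h a b hab
  obtain ⟨α', γ', h1'⟩ := h' a b hab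
  refine ⟨α + α', γ + γ', fun x hx hx' => ?_⟩
  simp only
  rw [h1 x hx hx', h1' x hx hx']; ring

lemma AffOff.const_mul {J : Finset ℝ} {ρ : ℝ} {P : ℝ → ℝ} (h : AffOff J ρ P) (c : ℝ) :
    AffOff J ρ (fun x => c * P x) := by
  intro a b hab
  obtain ⟨α, γ, h1⟩ := h a b hab
  refine ⟨c * α, c * γ, fun x hx hx' => ?_⟩
  simp only
  rw [h1 x hx hx']; ring

lemma affOff_affine (J : Finset ℝ) (ρ α γ : ℝ) : AffOff J ρ (fun x => α * x + γ) :=
  fun _ _ _ => ⟨α, γ, fun _ _ _ => rfl⟩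

lemma affOff_Rp {J : Finset ℝ} {ρ p : ℝ} (hρ : 0 < ρ) (hp : p ∈ J) : AffOff J ρ (Rp ρ p) := by
  intro a b hab
  rcases hab p hp with h | h
  · exact ⟨0, 0, fun x _ hx' => by rw [Rp_of_le hρ (hx'.trans h)]; ring⟩
  · exact ⟨1, -p, fun x hx _ => by rw [Rp_of_ge hρ (h.trans hx)]; ring⟩

/-! ### Admissible joints -/

/-- dyadic rationals with numerator prime to `15` -/
def Admi (p : ℝ) : Prop := ∃ a n : ℕ, a.Coprime 15 ∧ p = a / 2 ^ n

lemma exists_admi {x y : ℝ} (hx : 0 ≤ x) (hxy : x < y) : ∃ p, Admi p ∧ x < p ∧ p < y := by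
  obtain ⟨n, hn⟩ := pow_unbounded_of_one_lt (16 / (y - x)) (one_lt_two : (1 : ℝ) < 2)
  have hpos : 0 < y - x := by linarith
  rw [div_lt_iff₀ hpos] at hn
  -- `a = 15 t + 1`
  set t : ℕ := ⌈((2 : ℝ) ^ n * x) / 15⌉₊ with ht
  have h1 : ((2 : ℝ) ^ n * x) / 15 ≤ t := Nat.le_ceil _
  have h2 : (t : ℝ) < ((2 : ℝ) ^ n * x) / 15 + 1 := Nat.ceil_lt_add_one (by positivity)
  have h2n : (0 : ℝ) < 2 ^ n := by positivity
  -- to be safe use cases on whether `15 t + 1` fits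
  by_cases hfit : (15 * t + 1 : ℝ) < 2 ^ n * y
  · refine ⟨(15 * t + 1 : ℕ) / 2 ^ n, ⟨15 * t + 1, n, ?_, rfl⟩, ?_, ?_⟩
    · simp
    · rw [lt_div_iff₀ h2n]; push_cast; nlinarith
    · rw [div_lt_iff₀ h2n]; push_cast; nlinarith
  · exfalso
    nlinarith

end Pool.Agent.Germ.Beta
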