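import Pool.Agent.Helper92.Germ.B1

/-!
The approximations of `1/v` on `[1,2]` (for R7 `exists_beta` of MP_91c48b_an).
-/

open Filter Topology Set

namespace Pool.Agent.Germ.Beta

/-- grid points -/
noncomputable def cc (B : ℕ) (b : ℕ) : ℝ := 1 + b / B

/-- weights -/
noncomputable def ww (B : ℕ) (b : ℕ) : ℝ := 1 / cc B b ^ 2 - 1 / cc B (b + 1) ^ 2

/-- partial sums -/
noncomputable def FF (B : ℕ) (ρ : ℝ) (p : ℕ → ℝ) : ℕ → ℝ → ℝ
  | 0, v => 2 - v
  | n + 1, v => FF B ρ p n v + ww B n * Rp ρ (p n) v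

lemma cc_zero (B : ℕ) : cc B 0 = 1 := by simp [cc]

lemma cc_self {B : ℕ} (hB : 0 < B) : cc B B = 2 := by
  unfold cc
  have : (B : ℝ) ≠ 0 := by positivity
  rw [div_self this]; norm_num

lemma cc_succ (B b : ℕ) : cc B (b + 1) = cc B b + 1 / B := by
  unfold cc; push_cast; ring

lemma one_le_cc (B b : ℕ) : 1 ≤ cc B b := by
  unfold cc
  have : (0 : ℝ) ≤ (b : ℝ) / B := by positivity
  linarith

lemma cc_le_succ (B b : ℕ) : cc B b ≤ cc B (b + 1) := by
  rw [cc_succ]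
  have : (0 : ℝ) ≤ 1 / (B : ℝ) := by positivity
  linarith

lemma inv_sq_diff {x y h : ℝ} (hx : 1 ≤ x) (hxy : x ≤ y) (hy : y ≤ x + h) :
    0 ≤ 1 / x ^ 2 - 1 / y ^ 2 ∧ 1 / x ^ 2 - 1 / y ^ 2 ≤ 2 * h := by
  have hx0 : 0 < x := by linarith
  have hy0 : 0 < y := by linarith
  constructor
  · rw [sub_nonneg]
    gcongr
  · rw [div_sub_div _ _ (by positivity) (by positivity), div_le_iff₀ (by positivity)]
    have h1 : x ^ 2 * y ^ 2 = (x * y) * (x * y) := by ring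
    have hxy1 : 1 ≤ x * y := by nlinarith
    have h2 : x + y ≤ 2 * (x ^ 2 * y ^ 2) := by
      have : y ≤ x * y := by nlinarith
      have : x ≤ x * y := by nlinarith
      nlinarith
    have h3 : 1 * y ^ 2 - x ^ 2 * 1 = (y - x) * (x + y) := by ring
    rw [h3]
    have hh : 0 ≤ h := by linarith
    calc (y - x) * (x + y) ≤ h * (2 * (x ^ 2 * y ^ 2)) := by
          apply mul_le_mul _ h2 (by linarith) hh
          linarith
      _ = 2 * h * (x ^ 2 * y ^ 2) := by ring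

lemma ww_nonneg (B b : ℕ) : 0 ≤ ww B b :=
  (inv_sq_diff (one_le_cc B b) (cc_le_succ B b) (cc_succ B b).le).1

lemma ww_le (B b : ℕ) : ww B b ≤ 2 * (1 / B) :=
  (inv_sq_diff (one_le_cc B b) (cc_le_succ B b) (cc_succ B b).le).2

lemma FF_contDiff (B : ℕ) (ρ : ℝ) (p : ℕ → ℝ) (n : ℕ) :
    ContDiff ℝ ((⊤ : ℕ∞) : WithTop ℕ∞) (FF B ρ p n) := by
  induction n with
  | zero =>
    show ContDiff ℝ _ (fun v : ℝ => 2 - v)
    exact contDiff_const.sub contDiff_id
  | succ n ih =>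
    show ContDiff ℝ _ (fun v : ℝ => FF B ρ p n v + ww B n * Rp ρ (p n) v)
    exact ih.add (contDiff_const.mul (Rp_contDiff _ _))

lemma FF_diff (B : ℕ) (ρ : ℝ) (p : ℕ → ℝ) (n : ℕ) : Differentiable ℝ (FF B ρ p n) :=
  (FF_contDiff B ρ p n).differentiable (by simp)

lemma FF_deriv_succ (B : ℕ) (ρ : ℝ) (p : ℕ → ℝ) (n : ℕ) (v : ℝ) :
    deriv (FF B ρ p (n + 1)) v = deriv (FF B ρ p n) v + ww B n * deriv (Rp ρ (p n)) v := by
  have h1 : HasDerivAt (FF B ρ p n) (deriv (FF B ρ p n) v) v := (FF_diff B ρ p n v).hasDerivAt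
  have h2 : HasDerivAt (Rp ρ (p n)) (deriv (Rp ρ (p n)) v) v := (Rp_diff _ _ v).hasDerivAt
  have h3 := h1.add (h2.const_mul (ww B n))
  exact h3.deriv

lemma FF_zero_deriv (B : ℕ) (ρ : ℝ) (p : ℕ → ℝ) (v : ℝ) : deriv (FF B ρ p 0) v = -1 := by
  have h : HasDerivAt (fun v : ℝ => 2 - v) (-1) v := by
    simpa using (hasDerivAt_id v).const_sub 2
  exact h.deriv

lemma FF_left {B N : ℕ} {ρ : ℝ} (hρ : 0 < ρ) {p : ℕ → ℝ} (hp : ∀ b < N, cc B b ≤ p b - ρ) (n : ℕ)
    (hn : n ≤ N) {v : ℝ} (hv : v ≤ 1) : FF B ρ p n v = 2 - v := by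
  induction n with
  | zero => rfl
  | succ n ih =>
    show FF B ρ p n v + ww B n * Rp ρ (p n) v = 2 - v
    rw [ih (by omega), Rp_of_le hρ (by linarith [hp n (by omega), one_le_cc B n])]; ring

lemma FF_deriv_right {B N : ℕ} {ρ : ℝ} (hρ : 0 < ρ) {p : ℕ → ℝ}
    (hp' : ∀ b < N, p b + ρ ≤ cc B (b + 1)) (n : ℕ) (hn : n ≤ N) {v : ℝ} (hv : cc B n ≤ v) :
    deriv (FF B ρ p n) v = -(1 / cc B n ^ 2) := by
  induction n with
  | zero => rw [FF_zero_deriv, cc_zero]; norm_num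
  | succ n ih =>
    rw [FF_deriv_succ, ih (by omega) ((cc_le_succ B n).trans hv),
      Rp_deriv_of_ge hρ ((hp' n (by omega)).trans hv)]
    unfold ww; ring

lemma FF_deriv_close {B N : ℕ} {ρ : ℝ} (hρ : 0 < ρ) {p : ℕ → ℝ}
    (hp : ∀ b < N, cc B b ≤ p b - ρ) (hp' : ∀ b < N, p b + ρ ≤ cc B (b + 1)) (n : ℕ) (hn : n ≤ N)
    {v : ℝ} (hv1 : 1 ≤ v) (hv : v ≤ cc B n) :
    |deriv (FF B ρ p n) v + 1 / v ^ 2| ≤ 2 * (1 / B) * (1 + CR) := by
  have hCR := one_le_CR
  have hB0 : (0 : ℝ) ≤ 1 / B := by positivity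
  induction n with
  | zero =>
    rw [cc_zero] at hv
    have : v = 1 := le_antisymm hv hv1
    subst this
    rw [FF_zero_deriv]
    norm_num
    positivity
  | succ n ih =>
    rcases le_total v (cc B n) with h | h
    · rw [FF_deriv_succ, Rp_deriv_of_le hρ (h.trans (hp n (by omega))), mul_zero, add_zero]
      exact ih (by omega) h
    · rw [FF_deriv_succ, FF_deriv_right hρ hp' n (by omega) h]
      have h1 := inv_sq_diff (one_le_cc B n) h (h := 1 / (B : ℝ)) (by rw [← cc_succ]; exact hv)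
      have h2 : |ww B n * deriv (Rp ρ (p n)) v| ≤ 2 * (1 / B) * CR := by
        rw [abs_mul, abs_of_nonneg (ww_nonneg B n)]
        exact mul_le_mul (ww_le B n) (Rp_deriv_abs_le hρ v) (abs_nonneg _) (by positivity)
      have h3 : |-(1 / cc B n ^ 2) + 1 / v ^ 2| ≤ 2 * (1 / (B : ℝ)) := by
        rw [abs_le]; constructor <;> linarith [h1.1, h1.2]
      calc |-(1 / cc B n ^ 2) + ww B n * deriv (Rp ρ (p n)) v + 1 / v ^ 2|
          = |(-(1 / cc B n ^ 2) + 1 / v ^ 2) + ww B n * deriv (Rp ρ (p n)) v| := by ring_nf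
        _ ≤ |-(1 / cc B n ^ 2) + 1 / v ^ 2| + |ww B n * deriv (Rp ρ (p n)) v| := abs_add_le _ _
        _ ≤ 2 * (1 / B) + 2 * (1 / B) * CR := add_le_add h3 h2
        _ = 2 * (1 / B) * (1 + CR) := by ring

lemma FF_right {B N : ℕ} {ρ : ℝ} (hρ : 0 < ρ) {p : ℕ → ℝ}
    (hp' : ∀ b < N, p b + ρ ≤ cc B (b + 1)) (n : ℕ) (hn : n ≤ N) :
    ∃ a : ℝ, ∀ v, cc B n ≤ v → FF B ρ p n v = a - v / cc B n ^ 2 := by
  induction n with
  | zero => exact ⟨2, fun v _ => by rw [cc_zero]; show 2 - v = _; ring⟩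
  | succ n ih =>
    obtain ⟨a, ha⟩ := ih (by omega)
    refine ⟨a - ww B n * p n, fun v hv => ?_⟩
    show FF B ρ p n v + ww B n * Rp ρ (p n) v = _
    rw [ha v ((cc_le_succ B n).trans hv), Rp_of_ge hρ ((hp' n (by omega)).trans hv)]
    unfold ww; ring

lemma FF_affOff {B : ℕ} {ρ : ℝ} (hρ : 0 < ρ) {p : ℕ → ℝ} (n : ℕ) {J : Finset ℝ}
    (hJ : ∀ b < n, p b ∈ J) : AffOff J ρ (FF B ρ p n) := by
  induction n with
  | zero =>
    intro a b _
    exact ⟨-1, 2, fun x _ _ => by show 2 - x = _; ring⟩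
  | succ n ih =>
    show AffOff J ρ (fun v : ℝ => FF B ρ p n v + ww B n * Rp ρ (p n) v)
    exact (ih fun b hb => hJ b (by omega)).add ((affOff_Rp hρ (hJ n (by omega))).const_mul _)

/-- good approximations of `1/v` on `[1,2]` -/
structure Good (J : Finset ℝ) (ρ ε : ℝ) (P : ℝ → ℝ) : Prop where
  smooth : ContDiff ℝ ((⊤ : ℕ∞) : WithTop ℕ∞) P
  left : ∀ v ≤ 1, P v = 2 - v
  right : ∀ v, 2 ≤ v → P v = 1 - v / 4
  int : ∫ v in (1 : ℝ)..2, P v = Real.log 2
  close0 : ∀ v, 1 ≤ v → v ≤ 2 → |P v - 1 / v| ≤ ε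
  close1 : ∀ v, 1 ≤ v → v ≤ 2 → |deriv P v + 1 / v ^ 2| ≤ ε
  aff : AffOff J ρ P

lemma Good.mono {J J' : Finset ℝ} {ρ ρ' ε ε' : ℝ} {P : ℝ → ℝ} (h : Good J ρ ε P) (hJ : J ⊆ J')
    (hρ : ρ ≤ ρ') (hε : ε ≤ ε') : Good J' ρ' ε' P where
  smooth := h.smooth
  left := h.left
  right := h.right
  int := h.int
  close0 := fun v h1 h2 => (h.close0 v h1 h2).trans hε
  close1 := fun v h1 h2 => (h.close1 v h1 h2).trans hε
  aff := h.aff.mono hJ hρ

lemma Good.convex {J : Finset ℝ} {ρ ε : ℝ} {P P' : ℝ → ℝ} (h : Good J ρ ε P)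
    (h' : Good J ρ ε P') {t : ℝ} (ht0 : 0 ≤ t) (ht1 : t ≤ 1) :
    Good J ρ ε (fun v => (1 - t) * P v + t * P' v) where
  smooth := (contDiff_const.mul h.smooth).add (contDiff_const.mul h'.smooth)
  left := fun v hv => by rw [h.left v hv, h'.left v hv]; ring
  right := fun v hv => by rw [h.right v hv, h'.right v hv]; ring
  int := by
    rw [intervalIntegral.integral_add, intervalIntegral.integral_const_mul,
      intervalIntegral.integral_const_mul, h.int, h'.int]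
    · ring
    · exact (continuous_const.mul h.smooth.continuous).intervalIntegrable _ _
    · exact (continuous_const.mul h'.smooth.continuous).intervalIntegrable _ _
  close0 := fun v h1 h2 => by
    have e1 := h.close0 v h1 h2
    have e2 := h'.close0 v h1 h2
    have : (1 - t) * P v + t * P' v - 1 / v = (1 - t) * (P v - 1 / v) + t * (P' v - 1 / v) := by
      ring
    rw [this]
    calc _ ≤ |(1 - t) * (P v - 1 / v)| + |t * (P' v - 1 / v)| := abs_add_le _ _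
      _ ≤ (1 - t) * ε + t * ε := by
        rw [abs_mul, abs_mul, abs_of_nonneg ht0, abs_of_nonneg (by linarith : 0 ≤ 1 - t)]
        exact add_le_add (mul_le_mul_of_nonneg_left e1 (by linarith))
          (mul_le_mul_of_nonneg_left e2 ht0)
      _ = ε := by ring
  close1 := fun v h1 h2 => by
    have e1 := h.close1 v h1 h2
    have e2 := h'.close1 v h1 h2
    have d1 : HasDerivAt P (deriv P v) v := (h.smooth.differentiable (by simp) v).hasDerivAt
    have d2 : HasDerivAt P' (deriv P' v) v := (h'.smooth.differentiable (by simp) v).hasDerivAt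
    have d3 : deriv (fun v => (1 - t) * P v + t * P' v) v = (1 - t) * deriv P v + t * deriv P' v :=
      ((d1.const_mul (1 - t)).add (d2.const_mul t)).deriv
    rw [d3]
    have : (1 - t) * deriv P v + t * deriv P' v + 1 / v ^ 2
        = (1 - t) * (deriv P v + 1 / v ^ 2) + t * (deriv P' v + 1 / v ^ 2) := by
      ring
    rw [this]
    calc _ ≤ |(1 - t) * (deriv P v + 1 / v ^ 2)| + |t * (deriv P' v + 1 / v ^ 2)| := abs_add_le _ _
      _ ≤ (1 - t) * ε + t * ε := by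
        rw [abs_mul, abs_mul, abs_of_nonneg ht0, abs_of_nonneg (by linarith : 0 ≤ 1 - t)]
        exact add_le_add (mul_le_mul_of_nonneg_left e1 (by linarith))
          (mul_le_mul_of_nonneg_left e2 ht0)
      _ = ε := by ring
  aff := (h.aff.const_mul (1 - t)).add (h'.aff.const_mul t)

end Pool.Agent.Germ.Beta
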