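import Pool.Agent.Helper92.Germ.B2

/-!
Correction of the approximations of `1/v` on `[1,2]` (for R7 `exists_beta` of MP_91c48b_an).
-/

open Filter Topology Set

namespace Pool.Agent.Germ.Beta

/-- the smoothed tent function -/
noncomputable def tent (ρ v : ℝ) : ℝ := Rp ρ (17/16) v - 2 * Rp ρ (23/16) v + Rp ρ (29/16) v

lemma tent_ge {ρ : ℝ} (hρ : 0 < ρ) (v : ℝ) : (4/3) * (v - 17/16) * (29/16 - v) - 4 * ρ ≤ tent ρ v := by
  have h1 := abs_le.1 (Rp_sub_max (p := 17/16) (x := v) hρ)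
  have h2 := abs_le.1 (Rp_sub_max (p := 23/16) (x := v) hρ)
  have h3 := abs_le.1 (Rp_sub_max (p := 29/16) (x := v) hρ)
  have key : (4/3) * (v - 17/16) * (29/16 - v) ≤
      max (v - 17/16) 0 - 2 * max (v - 23/16) 0 + max (v - 29/16) 0 := by
    rcases le_total v (17/16) with a | a
    · rw [max_eq_right (by linarith), max_eq_right (by linarith), max_eq_right (by linarith)]
      nlinarith
    rcases le_total v (23/16) with b | b
    · rw [max_eq_left (by linarith), max_eq_right (by linarith), max_eq_right (by linarith)]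
      nlinarith
    rcases le_total v (29/16) with c | c
    · rw [max_eq_left (by linarith), max_eq_left (by linarith), max_eq_right (by linarith)]
      nlinarith
    · rw [max_eq_left (by linarith), max_eq_left (by linarith), max_eq_left (by linarith)]
      nlinarith
  unfold tent
  linarith [h1.1, h1.2, h2.1, h2.2, h3.1, h3.2]

lemma tent_cont (ρ : ℝ) : Continuous (tent ρ) := by
  unfold tent
  exact (((Rp_contDiff ρ (17/16)).continuous).sub
    (continuous_const.mul (Rp_contDiff ρ (23/16)).continuous)).add (Rp_contDiff ρ (29/16)).continuous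

lemma tent_contDiff (ρ : ℝ) : ContDiff ℝ ((⊤ : ℕ∞) : WithTop ℕ∞) (tent ρ) := by
  unfold tent
  exact (((Rp_contDiff ρ (17/16))).sub
    (contDiff_const.mul (Rp_contDiff ρ (23/16)))).add (Rp_contDiff ρ (29/16))

lemma tent_int {ρ : ℝ} (hρ : 0 < ρ) (hρ1 : ρ ≤ 1 / 1024) : 1 / 16 ≤ ∫ v in (1 : ℝ)..2, tent ρ v := by
  have h1 : ∫ v in (1 : ℝ)..2, ((4/3) * (v - 17/16) * (29/16 - v) - 4 * ρ)
      ≤ ∫ v in (1 : ℝ)..2, tent ρ v := by
    apply intervalIntegral.integral_mono_on (by norm_num)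
    · apply Continuous.intervalIntegrable; fun_prop
    · exact (tent_cont ρ).intervalIntegrable _ _
    · intro v _; exact tent_ge hρ v
  have h2 : ∫ v in (1 : ℝ)..2, ((4/3) * (v - 17/16) * (29/16 - v) - 4 * ρ) = 41/576 - 4 * ρ := by
    have hd : ∀ v ∈ uIcc (1 : ℝ) 2, HasDerivAt
        (fun v : ℝ => (4/3) * (-(v^3)/3 + (23/16) * v^2 - (493/256) * v) - 4 * ρ * v)
        ((4/3) * (v - 17/16) * (29/16 - v) - 4 * ρ) v := by
      intro v _
      have e1 : HasDerivAt (fun v : ℝ => v ^ 3) (3 * v ^ 2) v := by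
        simpa using hasDerivAt_pow 3 v
      have e2 : HasDerivAt (fun v : ℝ => v ^ 2) (2 * v) v := by
        simpa using hasDerivAt_pow 2 v
      have e3 : HasDerivAt (fun v : ℝ => v) 1 v := hasDerivAt_id v
      have e4 := ((((e1.neg.div_const 3).add (e2.const_mul (23/16))).sub
        (e3.const_mul (493/256))).const_mul (4/3)).sub (e3.const_mul (4 * ρ))
      exact e4.congr_deriv (by ring)
    rw [intervalIntegral.integral_eq_sub_of_hasDerivAt hd]
    · norm_num; ring
    · apply Continuous.intervalIntegrable; fun_prop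
  rw [h2] at h1
  linarith

/-- correction of the two moments -/
theorem correct {η a ρ : ℝ} (hρ : 0 < ρ) (hρ1 : ρ ≤ 1 / 1024) {P0 : ℝ → ℝ}
    (hs : ContDiff ℝ ((⊤ : ℕ∞) : WithTop ℕ∞) P0) (hl : ∀ v ≤ 1, P0 v = 2 - v)
    (hr : ∀ v, 2 ≤ v → P0 v = a - v / 4)
    (hc : ∀ v, 1 ≤ v → v ≤ 2 → |deriv P0 v + 1 / v ^ 2| ≤ η) {J : Finset ℝ}
    (hJ : AffOff J ρ P0) (h17 : (17/16 : ℝ) ∈ J) (h23 : (23/16 : ℝ) ∈ J) (h29 : (29/16 : ℝ) ∈ J) :
    ∃ P : ℝ → ℝ, Good J ρ (300 * CR * η) P := by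
  have hCR := one_le_CR
  have hη : 0 ≤ η := (abs_nonneg _).trans (hc 1 le_rfl (by norm_num))
  have hd0 : Differentiable ℝ P0 := hs.differentiable (by simp)
  -- closeness of the values
  have hc0 : ∀ v, 1 ≤ v → v ≤ 2 → |P0 v - 1 / v| ≤ η := by
    intro v h1 h2
    have hder : ∀ x ∈ Icc (1 : ℝ) 2, HasDerivWithinAt (fun v => P0 v - 1 / v)
        (deriv P0 x + 1 / x ^ 2) (Icc 1 2) x := by
      intro x hx
      have hx0 : x ≠ 0 := by linarith [hx.1]
      have e1 := (hd0 x).hasDerivAt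
      have e2 : HasDerivAt (fun v : ℝ => 1 / v) (-(1 / x ^ 2)) x := by
        have := hasDerivAt_inv hx0
        simpa [one_div] using this
      have e3 := ((e1.sub e2).congr_deriv (by ring : deriv P0 x - -(1 / x ^ 2) =
        deriv P0 x + 1 / x ^ 2)).hasDerivWithinAt (s := Icc (1 : ℝ) 2)
      exact e3
    have := norm_image_sub_le_of_norm_deriv_le_segment' hder (C := η)
      (fun x hx => by rw [Real.norm_eq_abs]; exact hc x hx.1 hx.2.le) v ⟨h1, h2⟩
    rw [Real.norm_eq_abs, hl 1 le_rfl] at this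
    norm_num at this
    have h3 : η * (v - 1) ≤ η := by nlinarith
    have h4 : |P0 v - 1 / v| = |P0 v - v⁻¹| := by rw [one_div]
    rw [h4]; linarith
  have ha : |1 - a| ≤ η := by
    have := hc0 2 (by norm_num) le_rfl
    rw [hr 2 le_rfl] at this
    rw [abs_le] at this ⊢
    constructor <;> linarith [this.1, this.2]
  set δ1 : ℝ := (1 - a) * (4/3) with hδ1
  have hδ1' : |δ1| ≤ 4/3 * η := by
    rw [hδ1, abs_mul, abs_of_pos (by norm_num : (0:ℝ) < 4/3)]; linarith
  set P1 : ℝ → ℝ := fun v => P0 v + δ1 * (Rp ρ (17/16) v - Rp ρ (29/16) v) with hP1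
  have hP1c : Continuous P1 := by
    rw [hP1]
    exact hs.continuous.add (continuous_const.mul ((Rp_contDiff ρ (17/16)).continuous.sub
      (Rp_contDiff ρ (29/16)).continuous))
  have hI := tent_int hρ hρ1
  set I : ℝ := ∫ v in (1 : ℝ)..2, tent ρ v with hIdef
  set δ2 : ℝ := (Real.log 2 - ∫ v in (1 : ℝ)..2, P1 v) / I with hδ2
  have hRp : ∀ p : ℝ, 1 ≤ p → p ≤ 2 → ∀ v, 1 ≤ v → v ≤ 2 → |Rp ρ p v| ≤ 1 := by
    intro p h1 h2 v h3 h4
    refine (Rp_abs_le hρ).trans ?_
    rw [abs_le]; constructor <;> linarith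
  have hP1close : ∀ v, 1 ≤ v → v ≤ 2 → |P1 v - 1 / v| ≤ 4 * η := by
    intro v h1 h2
    have e1 := hc0 v h1 h2
    have e2 := hRp (17/16) (by norm_num) (by norm_num) v h1 h2
    have e3 := hRp (29/16) (by norm_num) (by norm_num) v h1 h2
    have e4 : |Rp ρ (17/16) v - Rp ρ (29/16) v| ≤ 2 := by
      rw [abs_le] at e2 e3 ⊢; constructor <;> linarith [e2.1, e2.2, e3.1, e3.2]
    have e5 : |δ1 * (Rp ρ (17/16) v - Rp ρ (29/16) v)| ≤ 4/3 * η * 2 := by
      rw [abs_mul]; exact mul_le_mul hδ1' e4 (abs_nonneg _) (by positivity)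
    have e6 : P1 v - 1 / v = (P0 v - 1 / v) + δ1 * (Rp ρ (17/16) v - Rp ρ (29/16) v) := by
      rw [hP1]; ring
    rw [e6]
    refine (abs_add_le _ _).trans ?_
    linarith
  have hlog : ∫ v in (1 : ℝ)..2, 1 / v = Real.log 2 := by
    rw [integral_one_div (by simp [uIcc_of_le])]
    norm_num
  have hint1 : IntervalIntegrable (fun v : ℝ => 1 / v) MeasureTheory.volume 1 2 := by
    apply ContinuousOn.intervalIntegrable
    intro x hx
    rw [uIcc_of_le (by norm_num)] at hx
    have hx0 : x ≠ 0 := by linarith [hx.1]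
    exact (continuousAt_const.div continuousAt_id hx0).continuousWithinAt
  have hδ2' : |δ2| ≤ 64 * η := by
    have e1 : Real.log 2 - ∫ v in (1 : ℝ)..2, P1 v = -∫ v in (1 : ℝ)..2, (P1 v - 1 / v) := by
      rw [intervalIntegral.integral_sub (hP1c.intervalIntegrable _ _) hint1, hlog]; ring
    have e2 : |∫ v in (1 : ℝ)..2, (P1 v - 1 / v)| ≤ 4 * η := by
      have := intervalIntegral.norm_integral_le_of_norm_le_const (a := 1) (b := 2)
        (f := fun v : ℝ => P1 v - 1 / v) (C := 4 * η) (by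
          intro x hx
          rw [uIoc_of_le (by norm_num)] at hx
          rw [Real.norm_eq_abs]
          exact hP1close x hx.1.le hx.2)
      rw [Real.norm_eq_abs] at this
      norm_num at this
      simpa using this
    rw [hδ2, abs_div, e1, abs_neg, abs_of_pos (by linarith : 0 < I), div_le_iff₀ (by linarith)]
    nlinarith
  set P : ℝ → ℝ := fun v => P1 v + δ2 * tent ρ v with hP
  have hPs : ContDiff ℝ ((⊤ : ℕ∞) : WithTop ℕ∞) P := by
    rw [hP, hP1]
    exact (hs.add (contDiff_const.mul ((Rp_contDiff ρ (17/16)).sub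
      (Rp_contDiff ρ (29/16))))).add (contDiff_const.mul (tent_contDiff ρ))
  refine ⟨P, hPs, ?_, ?_, ?_, ?_, ?_, ?_⟩
  · intro v hv
    simp only [hP, hP1, tent]
    rw [hl v hv, Rp_of_le hρ (by linarith), Rp_of_le hρ (by linarith), Rp_of_le hρ (by linarith)]
    ring
  · intro v hv
    simp only [hP, hP1, tent]
    rw [hr v hv, Rp_of_ge hρ (by linarith), Rp_of_ge hρ (by linarith), Rp_of_ge hρ (by linarith)]
    rw [hδ1]; ring
  · have hi2 : IntervalIntegrable (fun v => δ2 * tent ρ v) MeasureTheory.volume 1 2 :=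
      (continuous_const.mul (tent_cont ρ)).intervalIntegrable _ _
    show ∫ v in (1 : ℝ)..2, (P1 v + δ2 * tent ρ v) = Real.log 2
    rw [intervalIntegral.integral_add (hP1c.intervalIntegrable _ _) hi2,
      intervalIntegral.integral_const_mul, ← hIdef, hδ2]
    have : I ≠ 0 := by linarith
    field_simp
    ring
  · intro v h1 h2
    have e1 := hP1close v h1 h2
    have e2 := hRp (17/16) (by norm_num) (by norm_num) v h1 h2
    have e3 := hRp (23/16) (by norm_num) (by norm_num) v h1 h2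
    have e4 := hRp (29/16) (by norm_num) (by norm_num) v h1 h2
    have e5 : |tent ρ v| ≤ 4 := by
      unfold tent
      rw [abs_le] at e2 e3 e4 ⊢; constructor <;> linarith [e2.1, e2.2, e3.1, e3.2, e4.1, e4.2]
    have e6 : |δ2 * tent ρ v| ≤ 64 * η * 4 := by
      rw [abs_mul]; exact mul_le_mul hδ2' e5 (abs_nonneg _) (by positivity)
    have e7 : P v - 1 / v = (P1 v - 1 / v) + δ2 * tent ρ v := by rw [hP]; ring
    rw [e7]
    refine (abs_add_le _ _).trans ?_
    nlinarith
  · intro v h1 h2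
    have e1 := hc v h1 h2
    have d0 : HasDerivAt P0 (deriv P0 v) v := (hd0 v).hasDerivAt
    have d17 : HasDerivAt (Rp ρ (17/16)) (deriv (Rp ρ (17/16)) v) v := (Rp_diff _ _ v).hasDerivAt
    have d23 : HasDerivAt (Rp ρ (23/16)) (deriv (Rp ρ (23/16)) v) v := (Rp_diff _ _ v).hasDerivAt
    have d29 : HasDerivAt (Rp ρ (29/16)) (deriv (Rp ρ (29/16)) v) v := (Rp_diff _ _ v).hasDerivAt
    have dP : HasDerivAt P (deriv P0 v + δ1 * (deriv (Rp ρ (17/16)) v - deriv (Rp ρ (29/16)) v) +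
        δ2 * (deriv (Rp ρ (17/16)) v - 2 * deriv (Rp ρ (23/16)) v + deriv (Rp ρ (29/16)) v)) v :=
      (d0.add ((d17.sub d29).const_mul δ1)).add (((d17.sub (d23.const_mul 2)).add d29).const_mul δ2)
    rw [dP.deriv]
    have e2 := Rp_deriv_abs_le (p := 17/16) hρ v
    have e3 := Rp_deriv_abs_le (p := 23/16) hρ v
    have e4 := Rp_deriv_abs_le (p := 29/16) hρ v
    have e5 : |deriv (Rp ρ (17/16)) v - deriv (Rp ρ (29/16)) v| ≤ 2 * CR := by
      rw [abs_le] at e2 e3 e4 ⊢; constructor <;> linarith [e2.1, e2.2, e4.1, e4.2]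
    have e6 : |deriv (Rp ρ (17/16)) v - 2 * deriv (Rp ρ (23/16)) v + deriv (Rp ρ (29/16)) v| ≤ 4 * CR := by
      rw [abs_le] at e2 e3 e4 ⊢; constructor <;> linarith [e2.1, e2.2, e3.1, e3.2, e4.1, e4.2]
    have e7 : |δ1 * (deriv (Rp ρ (17/16)) v - deriv (Rp ρ (29/16)) v)| ≤ 4/3 * η * (2 * CR) := by
      rw [abs_mul]; exact mul_le_mul hδ1' e5 (abs_nonneg _) (by positivity)
    have e8 : |δ2 * (deriv (Rp ρ (17/16)) v - 2 * deriv (Rp ρ (23/16)) v + deriv (Rp ρ (29/16)) v)|
        ≤ 64 * η * (4 * CR) := by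
      rw [abs_mul]; exact mul_le_mul hδ2' e6 (abs_nonneg _) (by positivity)
    have e9 : ∀ A B C D : ℝ, |A + B + C + D| ≤ |A + D| + |B| + |C| := by
      intro A B C D
      have : A + B + C + D = (A + D) + B + C := by ring
      rw [this]
      exact (abs_add_le _ _).trans (by gcongr; exact abs_add_le _ _)
    refine (e9 _ _ _ _).trans ?_
    have e10 : η ≤ CR * η := by nlinarith
    nlinarith
  · rw [hP, hP1]
    have b1 : AffOff J ρ (Rp ρ (17/16)) := affOff_Rp hρ h17
    have b2 : AffOff J ρ (Rp ρ (23/16)) := affOff_Rp hρ h23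
    have b3 : AffOff J ρ (Rp ρ (29/16)) := affOff_Rp hρ h29
    have b4 : AffOff J ρ (fun v => Rp ρ (17/16) v - Rp ρ (29/16) v) := by
      have := b1.add (b3.const_mul (-1))
      refine fun x y hxy => ?_
      obtain ⟨α, γ, h⟩ := this x y hxy
      exact ⟨α, γ, fun z hz hz' => by rw [← h z hz hz']; ring⟩
    have b5 : AffOff J ρ (tent ρ) := by
      have := (b1.add (b2.const_mul (-2))).add b3
      refine fun x y hxy => ?_
      obtain ⟨α, γ, h⟩ := this x y hxy
      exact ⟨α, γ, fun z hz hz' => by rw [← h z hz hz']; unfold tent; ring⟩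
    exact (hJ.add (b4.const_mul δ1)).add (b5.const_mul δ2)

end Pool.Agent.Germ.Beta
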