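import Pool.Agent.Helper92.Germ.B3

/-!
Existence of the approximations of `1/v` on `[1,2]` and separation of joints
(for R7 `exists_beta` of MP_91c48b_an).
-/

open Filter Topology Set

namespace Pool.Agent.Germ.Beta

theorem exists_good (ε : ℝ) (hε : 0 < ε) : ∃ J : Finset ℝ, (∀ p ∈ J, Admi p ∧ 1 < p ∧ p < 2) ∧
    ∀ ρ0 : ℝ, 0 < ρ0 → ∃ P : ℝ → ℝ, Good J ρ0 ε P := by
  have hCR := one_le_CR
  obtain ⟨B, hB⟩ := exists_nat_gt (300 * CR * (2 * (1 + CR)) / ε)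
  have hBpos' : (0 : ℝ) < B := lt_of_le_of_lt (by positivity) hB
  have hBpos : 0 < B := by exact_mod_cast hBpos'
  have hη : 300 * CR * (2 * (1 / (B : ℝ)) * (1 + CR)) ≤ ε := by
    rw [div_lt_iff₀ hε] at hB
    have : 300 * CR * (2 * (1 / (B : ℝ)) * (1 + CR)) = (300 * CR * (2 * (1 + CR))) / B := by ring
    rw [this, div_le_iff₀ hBpos']; linarith
  have hsel : ∀ b : ℕ, ∃ p, Admi p ∧ cc B b < p ∧ p < cc B (b + 1) := by
    intro b
    apply exists_admi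
    · linarith [one_le_cc B b]
    · rw [cc_succ]
      have : (0 : ℝ) < 1 / B := by positivity
      linarith
  choose p hpA hp1 hp2 using hsel
  set J : Finset ℝ := (Finset.range B).image p ∪ {17/16, 23/16, 29/16} with hJ
  refine ⟨J, ?_, ?_⟩
  · intro q hq
    rw [hJ, Finset.mem_union, Finset.mem_image] at hq
    rcases hq with ⟨b, hb, rfl⟩ | hq
    · rw [Finset.mem_range] at hb
      refine ⟨hpA b, lt_of_le_of_lt (one_le_cc B b) (hp1 b), lt_of_lt_of_le (hp2 b) ?_⟩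
      unfold cc
      have : ((b + 1 : ℕ) : ℝ) / B ≤ 1 := by
        rw [div_le_one hBpos']; exact_mod_cast hb
      linarith
    · simp only [Finset.mem_insert, Finset.mem_singleton] at hq
      rcases hq with rfl | rfl | rfl
      · exact ⟨⟨17, 4, by norm_num, by norm_num⟩, by norm_num, by norm_num⟩
      · exact ⟨⟨23, 4, by norm_num, by norm_num⟩, by norm_num, by norm_num⟩
      · exact ⟨⟨29, 4, by norm_num, by norm_num⟩, by norm_num, by norm_num⟩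
  · intro ρ0 hρ0
    have hev : ∀ᶠ ρ in 𝓝[>] (0 : ℝ), (∀ b ∈ Finset.range B, cc B b ≤ p b - ρ ∧ p b + ρ ≤ cc B (b + 1)) ∧
        ρ ≤ ρ0 ∧ ρ ≤ 1 / 1024 ∧ 0 < ρ := by
      refine Filter.Eventually.and ?_ (Filter.Eventually.and ?_ (Filter.Eventually.and ?_ ?_))
      · rw [Filter.eventually_all_finset]
        intro b _
        have h1 : ∀ᶠ ρ in 𝓝 (0 : ℝ), ρ < p b - cc B b := Iio_mem_nhds (by linarith [hp1 b])
        have h2 : ∀ᶠ ρ in 𝓝 (0 : ℝ), ρ < cc B (b + 1) - p b := Iio_mem_nhds (by linarith [hp2 b])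
        filter_upwards [h1.filter_mono nhdsWithin_le_nhds, h2.filter_mono nhdsWithin_le_nhds]
          with ρ a1 a2
        constructor <;> linarith
      · exact (show ∀ᶠ ρ in 𝓝 (0 : ℝ), ρ ≤ ρ0 from Iic_mem_nhds hρ0).filter_mono nhdsWithin_le_nhds
      · exact (show ∀ᶠ ρ in 𝓝 (0 : ℝ), ρ ≤ 1 / 1024 from Iic_mem_nhds (by norm_num)).filter_mono
          nhdsWithin_le_nhds
      · exact self_mem_nhdsWithin
    obtain ⟨ρ, hρb, hρ1, hρ2, hρ⟩ := hev.exists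
    have hA : ∀ b < B, cc B b ≤ p b - ρ := fun b hb => (hρb b (Finset.mem_range.2 hb)).1
    have hA' : ∀ b < B, p b + ρ ≤ cc B (b + 1) := fun b hb => (hρb b (Finset.mem_range.2 hb)).2
    obtain ⟨a, ha⟩ := FF_right hρ hA' B le_rfl
    obtain ⟨P, hP⟩ := correct (η := 2 * (1 / (B : ℝ)) * (1 + CR)) (a := a) (J := J) hρ hρ2
      (FF_contDiff B ρ p B)
      (fun v hv => FF_left hρ hA B le_rfl hv)
      (fun v hv => by
        rw [ha v (by rw [cc_self hBpos]; exact hv), cc_self hBpos]; norm_num)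
      (fun v h1 h2 => FF_deriv_close hρ hA hA' B le_rfl h1 (by rw [cc_self hBpos]; exact h2))
      (FF_affOff hρ B fun b hb => by
        rw [hJ, Finset.mem_union, Finset.mem_image]
        exact Or.inl ⟨b, Finset.mem_range.2 hb, rfl⟩)
      (by rw [hJ]; simp) (by rw [hJ]; simp) (by rw [hJ]; simp)
    exact ⟨P, hP.mono (Finset.Subset.refl _) hρ1 hη⟩

/-! ### Separation -/

lemma padic_nat {ℓ a : ℕ} [Fact (Nat.Prime ℓ)] (h : ¬ ℓ ∣ a) : padicValRat ℓ (a : ℚ) = 0 := by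
  rw [padicValRat.of_nat, padicValNat.eq_zero_of_not_dvd h]; rfl

lemma padic_admi {q : ℚ} {a n : ℕ} (ha : a.Coprime 15) (hq : q = a / 2 ^ n) :
    q ≠ 0 ∧ padicValRat 3 q = 0 ∧ padicValRat 5 q = 0 := by
  have ha0 : a ≠ 0 := by rintro rfl; norm_num at ha
  have haq : (a : ℚ) ≠ 0 := by exact_mod_cast ha0
  have : Fact (Nat.Prime 3) := ⟨by norm_num⟩
  have : Fact (Nat.Prime 5) := ⟨by norm_num⟩
  have h3 : ¬ 3 ∣ a := by
    intro h
    have : (3 : ℕ) ∣ Nat.gcd a 15 := Nat.dvd_gcd h (by norm_num)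
    rw [Nat.Coprime] at ha
    rw [ha] at this; norm_num at this
  have h5 : ¬ 5 ∣ a := by
    intro h
    have : (5 : ℕ) ∣ Nat.gcd a 15 := Nat.dvd_gcd h (by norm_num)
    rw [Nat.Coprime] at ha
    rw [ha] at this; norm_num at this
  have key : ∀ ℓ : ℕ, [Fact (Nat.Prime ℓ)] → ¬ ℓ ∣ a → ¬ ℓ ∣ 2 → padicValRat ℓ q = 0 := by
    intro ℓ _ hla hl2
    rw [hq, padicValRat.div haq (by positivity), padicValRat.pow,
      padicValRat.of_nat, padicValNat.eq_zero_of_not_dvd hla]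
    have : padicValRat ℓ (2 : ℚ) = 0 := by exact_mod_cast padic_nat hl2
    rw [this]; simp
  refine ⟨?_, key 3 h3 (by norm_num), key 5 h5 (by norm_num)⟩
  rw [hq]; positivity

lemma admi_unique {p p' : ℝ} (hp : Admi p) (hp' : Admi p') (h1 : 1 < p) (h2 : p < 2)
    (h1' : 1 < p') (h2' : p' < 2) {i j l : ℤ}
    (h : (3 : ℝ) ^ i * 2 ^ l * p = 5 ^ j * p') : i = 0 ∧ j = 0 ∧ l = 0 ∧ p = p' := by
  have : Fact (Nat.Prime 3) := ⟨by norm_num⟩
  have : Fact (Nat.Prime 5) := ⟨by norm_num⟩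
  obtain ⟨a, n, ha, rfl⟩ := hp
  obtain ⟨a', n', ha', rfl⟩ := hp'
  obtain ⟨q0, q3, q5⟩ := padic_admi ha (q := (a : ℚ) / 2 ^ n) rfl
  obtain ⟨q0', q3', q5'⟩ := padic_admi ha' (q := (a' : ℚ) / 2 ^ n') rfl
  have hQ : (3 : ℚ) ^ i * 2 ^ l * ((a : ℚ) / 2 ^ n) = 5 ^ j * ((a' : ℚ) / 2 ^ n') := by
    have : (((3 : ℚ) ^ i * 2 ^ l * ((a : ℚ) / 2 ^ n) : ℚ) : ℝ) = ((5 ^ j * ((a' : ℚ) / 2 ^ n') : ℚ) : ℝ) := by
      push_cast; exact h
    exact_mod_cast this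
  have v32 : padicValRat 3 (2 : ℚ) = 0 := by
    exact_mod_cast padic_nat (ℓ := 3) (a := 2) (by norm_num)
  have v35 : padicValRat 3 (5 : ℚ) = 0 := by
    exact_mod_cast padic_nat (ℓ := 3) (a := 5) (by norm_num)
  have v33 : padicValRat 3 (3 : ℚ) = 1 := by
    have := padicValRat.self (p := 3) (by norm_num)
    exact_mod_cast this
  have v52 : padicValRat 5 (2 : ℚ) = 0 := by
    exact_mod_cast padic_nat (ℓ := 5) (a := 2) (by norm_num)
  have v53 : padicValRat 5 (3 : ℚ) = 0 := by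
    exact_mod_cast padic_nat (ℓ := 5) (a := 3) (by norm_num)
  have v55 : padicValRat 5 (5 : ℚ) = 1 := by
    have := padicValRat.self (p := 5) (by norm_num)
    exact_mod_cast this
  have hi : i = 0 := by
    have := congrArg (padicValRat 3) hQ
    rw [padicValRat.mul (by positivity) q0, padicValRat.mul (by positivity) (by positivity),
      padicValRat.mul (by positivity) q0', padicValRat.zpow, padicValRat.zpow, padicValRat.zpow,
      v32, v33, v35, q3, q3'] at this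
    simpa using this
  have hj : j = 0 := by
    have := congrArg (padicValRat 5) hQ
    rw [padicValRat.mul (by positivity) q0, padicValRat.mul (by positivity) (by positivity),
      padicValRat.mul (by positivity) q0', padicValRat.zpow, padicValRat.zpow, padicValRat.zpow,
      v52, v53, v55, q5, q5'] at this
    simpa using this.symm
  subst hi; subst hj
  simp only [zpow_zero, one_mul] at h
  have hl : l = 0 := by
    by_contra hl
    rcases lt_or_gt_of_ne hl with hl | hl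
    · have : (2 : ℝ) ^ l ≤ 2 ^ (-1 : ℤ) := zpow_le_zpow_right₀ (by norm_num) (by omega)
      norm_num at this
      nlinarith
    · have : (2 : ℝ) ^ (1 : ℤ) ≤ 2 ^ l := zpow_le_zpow_right₀ (by norm_num) (by omega)
      norm_num at this
      nlinarith
  subst hl
  exact ⟨rfl, rfl, rfl, by simpa using h⟩

lemma bound_l {M : ℕ} {i j l : ℤ} (hi : |i| ≤ M) (hj : |j| ≤ M) {y y' : ℝ} (hy1 : 1 < y)
    (hy2 : y < 2) (hy1' : 1 < y') (hy2' : y' < 2) (heq : (3 : ℝ) ^ i * 2 ^ l * y = 5 ^ j * y') :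
    -(4 * (M : ℤ) + 1) ≤ l ∧ l ≤ 4 * M + 1 := by
  set Lb : ℤ := 4 * M + 1 with hLb
  have hi' := abs_le.1 hi
  have hj' := abs_le.1 hj
  -- bounds on `l`
  have h3i : (0 : ℝ) < 3 ^ i := by positivity
  have h5j : (0 : ℝ) < 5 ^ j := by positivity
  have h2l : (0 : ℝ) < 2 ^ l := by positivity
  have h3M : (3 : ℝ) ^ i ≤ 3 ^ (M : ℤ) := zpow_le_zpow_right₀ (by norm_num) hi'.2
  have h3M' : (3 : ℝ) ^ (-(M : ℤ)) ≤ 3 ^ i := zpow_le_zpow_right₀ (by norm_num) hi'.1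
  have h5M : (5 : ℝ) ^ j ≤ 5 ^ (M : ℤ) := zpow_le_zpow_right₀ (by norm_num) hj'.2
  have h5M' : (5 : ℝ) ^ (-(M : ℤ)) ≤ 5 ^ j := zpow_le_zpow_right₀ (by norm_num) hj'.1
  have h16 : (3 : ℝ) ^ (M : ℤ) * 5 ^ (M : ℤ) ≤ 2 ^ (4 * M : ℤ) := by
    rw [← mul_zpow, zpow_mul]
    norm_num
    gcongr
    norm_num
  have hl1 : l ≤ Lb := by
    by_contra hcon
    push Not at hcon
    have e1 : (2 : ℝ) ^ (Lb + 1) ≤ 2 ^ l := zpow_le_zpow_right₀ (by norm_num) (by omega)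
    have e2 : (2 : ℝ) ^ (Lb + 1) = 4 * 2 ^ (4 * M : ℤ) := by
      rw [hLb, show (4 * (M : ℤ) + 1 + 1) = 4 * M + 2 by ring, zpow_add₀ (by norm_num)]
      norm_num; ring
    have e3 : (3 : ℝ) ^ (-(M : ℤ)) * (3 : ℝ) ^ (M : ℤ) = 1 := by
      rw [← zpow_add₀ (by norm_num)]; simp
    have e4 : (3 : ℝ) ^ i * 2 ^ l * y ≥ 3 ^ (-(M : ℤ)) * (4 * (3 ^ (M : ℤ) * 5 ^ (M : ℤ))) * 1 := by
      have : 4 * ((3 : ℝ) ^ (M : ℤ) * 5 ^ (M : ℤ)) ≤ 2 ^ l := by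
        rw [e2] at e1; linarith
      gcongr
    have e5 : (3 : ℝ) ^ (-(M : ℤ)) * (4 * (3 ^ (M : ℤ) * 5 ^ (M : ℤ))) * 1 = 4 * 5 ^ (M : ℤ) := by
      calc _ = ((3 : ℝ) ^ (-(M : ℤ)) * (3 : ℝ) ^ (M : ℤ)) * (4 * 5 ^ (M : ℤ)) := by ring
        _ = _ := by rw [e3, one_mul]
    rw [e5, heq] at e4
    have e6 : (5 : ℝ) ^ j * y' < 5 ^ (M : ℤ) * 2 := by
      calc (5 : ℝ) ^ j * y' ≤ 5 ^ (M : ℤ) * y' := by gcongr
        _ < 5 ^ (M : ℤ) * 2 := by gcongr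
    have e7 : (0 : ℝ) < 5 ^ (M : ℤ) := by positivity
    linarith
  have hl2 : -Lb ≤ l := by
    by_contra hcon
    push Not at hcon
    have e1 : (2 : ℝ) ^ l ≤ 2 ^ (-(Lb + 1)) := zpow_le_zpow_right₀ (by norm_num) (by omega)
    have e2 : (2 : ℝ) ^ (Lb + 1) = 4 * 2 ^ (4 * M : ℤ) := by
      rw [hLb, show (4 * (M : ℤ) + 1 + 1) = 4 * M + 2 by ring, zpow_add₀ (by norm_num)]
      norm_num; ring
    have e3 : (2 : ℝ) ^ l * (4 * ((3 : ℝ) ^ (M : ℤ) * 5 ^ (M : ℤ))) ≤ 1 := by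
      calc (2 : ℝ) ^ l * (4 * ((3 : ℝ) ^ (M : ℤ) * 5 ^ (M : ℤ)))
          ≤ 2 ^ (-(Lb + 1)) * 2 ^ (Lb + 1) := by
            rw [e2]; gcongr
        _ = 1 := by rw [← zpow_add₀ (by norm_num)]; simp
    have e4 : (5 : ℝ) ^ (-(M : ℤ)) * (5 : ℝ) ^ (M : ℤ) = 1 := by
      rw [← zpow_add₀ (by norm_num)]; simp
    -- 3^i 2^l y ≤ 3^M 2^l 2 and 5^j y' > 5^{-M}
    have e5 : (3 : ℝ) ^ i * 2 ^ l * y ≤ 3 ^ (M : ℤ) * 2 ^ l * 2 := by
      gcongr
    have e6 : (5 : ℝ) ^ (-(M : ℤ)) ≤ 5 ^ j * y' := by nlinarith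
    have e7 : (0 : ℝ) < 5 ^ (M : ℤ) := by positivity
    have e8 : (1 : ℝ) ≤ 3 ^ (M : ℤ) * 2 ^ l * 2 * 5 ^ (M : ℤ) := by
      rw [← e4]
      gcongr
      rw [← heq] at e6
      exact e6.trans e5
    nlinarith
  exact ⟨hl2, hl1⟩

/-- separation of finitely many admissible joints -/
theorem separation (K : Finset ℝ) (hK : ∀ p ∈ K, Admi p ∧ 1 < p ∧ p < 2) (M : ℕ) :
    ∃ s : ℝ, 0 < s ∧ (∀ p ∈ K, 1 < p - s ∧ p + s < 2) ∧
      ∀ p ∈ K, ∀ p' ∈ K, ∀ i j l : ℤ, |i| ≤ M → |j| ≤ M → ∀ y y' : ℝ,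
        |y - p| ≤ s → |y' - p'| ≤ s → (3 : ℝ) ^ i * 2 ^ l * y = 5 ^ j * y' →
        i = 0 ∧ j = 0 ∧ l = 0 ∧ p = p' := by
  classical
  set Lb : ℤ := 4 * M + 1 with hLb
  -- the finite set of tuples
  set T : Finset (ℝ × ℝ × ℤ × ℤ × ℤ) :=
    (K ×ˢ K ×ˢ (Finset.Icc (-(M : ℤ)) M) ×ˢ (Finset.Icc (-(M : ℤ)) M) ×ˢ (Finset.Icc (-Lb) Lb)).filter
      (fun t => (3 : ℝ) ^ t.2.2.1 * 2 ^ t.2.2.2.2 * t.1 ≠ 5 ^ t.2.2.2.1 * t.2.1) with hT
  have hev : ∀ᶠ s in 𝓝[>] (0 : ℝ), (∀ t ∈ T, s * ((3 : ℝ) ^ t.2.2.1 * 2 ^ t.2.2.2.2 + 5 ^ t.2.2.2.1) <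
      |(3 : ℝ) ^ t.2.2.1 * 2 ^ t.2.2.2.2 * t.1 - 5 ^ t.2.2.2.1 * t.2.1|) ∧
      (∀ p ∈ K, 1 < p - s ∧ p + s < 2) ∧ 0 < s := by
    refine Filter.Eventually.and ?_ (Filter.Eventually.and ?_ self_mem_nhdsWithin)
    · rw [Filter.eventually_all_finset]
      intro t ht
      have hne : (3 : ℝ) ^ t.2.2.1 * 2 ^ t.2.2.2.2 * t.1 - 5 ^ t.2.2.2.1 * t.2.1 ≠ 0 :=
        sub_ne_zero.2 (Finset.mem_filter.1 ht).2
      have hpos := abs_pos.2 hne
      have hc : Tendsto (fun s : ℝ => s * ((3 : ℝ) ^ t.2.2.1 * 2 ^ t.2.2.2.2 + 5 ^ t.2.2.2.1))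
          (𝓝[>] 0) (𝓝 (0 * ((3 : ℝ) ^ t.2.2.1 * 2 ^ t.2.2.2.2 + 5 ^ t.2.2.2.1))) :=
        (tendsto_id.mul_const _).mono_left nhdsWithin_le_nhds
      rw [zero_mul] at hc
      exact hc (Iio_mem_nhds hpos)
    · rw [Filter.eventually_all_finset]
      intro p hp
      have h1 : ∀ᶠ ρ in 𝓝 (0 : ℝ), ρ < p - 1 := Iio_mem_nhds (by linarith [(hK p hp).2.1])
      have h2 : ∀ᶠ ρ in 𝓝 (0 : ℝ), ρ < 2 - p := Iio_mem_nhds (by linarith [(hK p hp).2.2])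
      filter_upwards [h1.filter_mono nhdsWithin_le_nhds, h2.filter_mono nhdsWithin_le_nhds]
        with ρ a1 a2
      constructor <;> linarith
  obtain ⟨s, hsT, hsK, hs⟩ := hev.exists
  refine ⟨s, hs, hsK, ?_⟩
  intro p hp p' hp' i j l hi hj y y' hy hy' heq
  have hp12 := hsK p hp
  have hp12' := hsK p' hp'
  rw [abs_le] at hy hy'
  have hy1 : 1 < y := by linarith [hy.1]
  have hy2 : y < 2 := by linarith [hy.2]
  have hy1' : 1 < y' := by linarith [hy'.1]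
  have hy2' : y' < 2 := by linarith [hy'.2]
  by_cases hE : (3 : ℝ) ^ i * 2 ^ l * p = 5 ^ j * p'
  · exact admi_unique (hK p hp).1 (hK p' hp').1 (hK p hp).2.1 (hK p hp).2.2 (hK p' hp').2.1
      (hK p' hp').2.2 hE
  · exfalso
    have hi' := abs_le.1 hi
    have hj' := abs_le.1 hj
    obtain ⟨hl2, hl1⟩ := bound_l hi hj hy1 hy2 hy1' hy2' heq
    have h3i : (0 : ℝ) < 3 ^ i := by positivity
    have h5j : (0 : ℝ) < 5 ^ j := by positivity
    have h2l : (0 : ℝ) < 2 ^ l := by positivity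
    have hmem : (p, p', i, j, l) ∈ T := by
      rw [hT, Finset.mem_filter]
      refine ⟨?_, hE⟩
      simp only [Finset.mem_product, Finset.mem_Icc]
      exact ⟨hp, hp', ⟨hi'.1, hi'.2⟩, ⟨hj'.1, hj'.2⟩, ⟨hl2, hl1⟩⟩
    have h := hsT _ hmem
    simp only at h
    have e1 : (3 : ℝ) ^ i * 2 ^ l * p - 5 ^ j * p' =
        3 ^ i * 2 ^ l * (p - y) + 5 ^ j * (y' - p') := by
      linear_combination heq
    rw [e1] at h
    have e2 : |(3 : ℝ) ^ i * 2 ^ l * (p - y) + 5 ^ j * (y' - p')| ≤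
        s * (3 ^ i * 2 ^ l + 5 ^ j) := by
      refine (abs_add_le _ _).trans ?_
      rw [abs_mul (3 ^ i * 2 ^ l) (p - y), abs_mul (5 ^ j) (y' - p'),
        abs_of_pos (by positivity : (0 : ℝ) < 3 ^ i * 2 ^ l), abs_of_pos h5j]
      have a1 : |p - y| ≤ s := by rw [abs_le]; constructor <;> linarith [hy.1, hy.2]
      have a2 : |y' - p'| ≤ s := by rw [abs_le]; exact hy'
      have a3 : (3 : ℝ) ^ i * 2 ^ l * |p - y| ≤ 3 ^ i * 2 ^ l * s := by gcongr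
      have a4 : (5 : ℝ) ^ j * |y' - p'| ≤ 5 ^ j * s := by gcongr
      linarith
    linarith

end Pool.Agent.Germ.Beta
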