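import Pool.Agent.Helper92.Germ.B4

/-!
The sequence of blocks (for R7 `exists_beta` of MP_91c48b_an).
-/

open Filter Topology Set

namespace Pool.Agent.Germ.Beta

/-! ### The index function of a strictly increasing sequence -/

/-- the index `m` with `S m ≤ k < S (m+1)` -/
def idx (S : ℕ → ℕ) (k : ℕ) : ℕ := Nat.findGreatest (fun m => S m ≤ k) k

lemma idx_le {S : ℕ → ℕ} (hS0 : S 0 = 0) (k : ℕ) : S (idx S k) ≤ k := by
  unfold idx
  exact Nat.findGreatest_spec (P := fun m => S m ≤ k) (Nat.zero_le k) (by simp [hS0])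

lemma lt_idx_succ {S : ℕ → ℕ} (hS : StrictMono S) (k : ℕ) : k < S (idx S k + 1) := by
  by_contra h
  push Not at h
  have h1 : idx S k + 1 ≤ k := hS.le_apply.trans h
  have h2 : idx S k + 1 ≤ idx S k := by
    conv_rhs => unfold idx
    exact Nat.le_findGreatest h1 h
  omega

lemma idx_eq {S : ℕ → ℕ} (hS0 : S 0 = 0) (hS : StrictMono S) {k m : ℕ} (h1 : S m ≤ k)
    (h2 : k < S (m + 1)) : idx S k = m := by
  have h3 := idx_le hS0 k
  have h4 := lt_idx_succ hS k
  have h5 : idx S k < m + 1 := hS.lt_iff_lt.1 (lt_of_le_of_lt h3 h2)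
  have h6 : m < idx S k + 1 := hS.lt_iff_lt.1 (lt_of_le_of_lt h1 h4)
  omega

lemma le_idx {S : ℕ → ℕ} (hS : StrictMono S) {k m : ℕ} (h : S m ≤ k) : m ≤ idx S k := by
  have h4 := lt_idx_succ hS k
  have h6 : m < idx S k + 1 := hS.lt_iff_lt.1 (lt_of_le_of_lt h h4)
  omega

lemma idx_mono {S : ℕ → ℕ} (hS0 : S 0 = 0) (hS : StrictMono S) : Monotone (idx S) :=
  fun _ _ h => le_idx hS ((idx_le hS0 _).trans h)

lemma idx_tendsto {S : ℕ → ℕ} (hS : StrictMono S) : Tendsto (idx S) atTop atTop := by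
  rw [tendsto_atTop]
  intro m
  filter_upwards [eventually_ge_atTop (S m)] with k hk
  exact le_idx hS hk

lemma idx_succ {S : ℕ → ℕ} (hS0 : S 0 = 0) (hS : StrictMono S) (k : ℕ) :
    (k + 1 < S (idx S k + 1) ∧ idx S (k + 1) = idx S k) ∨
      (k + 1 = S (idx S k + 1) ∧ idx S (k + 1) = idx S k + 1) := by
  have h1 := idx_le hS0 k
  have h2 := lt_idx_succ hS k
  rcases lt_or_eq_of_le (Nat.succ_le_of_lt h2) with h | h
  · left
    exact ⟨h, idx_eq hS0 hS (by omega) h⟩
  · right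
    refine ⟨h, idx_eq hS0 hS h.symm.le ?_⟩
    have : S (idx S k + 1) < S (idx S k + 1 + 1) := hS (Nat.lt_succ_self _)
    omega

/-! ### Bounds on compact sets -/

lemma exists_iter_bound {f : ℝ → ℝ} (hf : ContDiff ℝ ((⊤ : ℕ∞) : WithTop ℕ∞) f) (n : ℕ) :
    ∃ C : ℝ, 0 ≤ C ∧ ∀ i ≤ n, ∀ v, 1 ≤ v → v ≤ 2 → |iteratedDeriv i f v| ≤ C := by
  have h : ∀ i : ℕ, ∃ C : ℝ, ∀ v ∈ Icc (1 : ℝ) 2, ‖iteratedDeriv i f v‖ ≤ C := fun i =>
    isCompact_Icc.exists_bound_of_continuousOn
      (hf.continuous_iteratedDeriv i (by exact_mod_cast le_top)).continuousOn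
  choose C hC using h
  refine ⟨∑ i ∈ Finset.range (n + 1), |C i|, by positivity, fun i hi v h1 h2 => ?_⟩
  have h3 := hC i v ⟨h1, h2⟩
  rw [Real.norm_eq_abs] at h3
  refine h3.trans ((le_abs_self _).trans ?_)
  exact Finset.single_le_sum (f := fun i => |C i|) (fun _ _ => abs_nonneg _)
    (Finset.mem_range.2 (by omega))

lemma iter_comb {f g : ℝ → ℝ} (hf : ContDiff ℝ ((⊤ : ℕ∞) : WithTop ℕ∞) f)
    (hg : ContDiff ℝ ((⊤ : ℕ∞) : WithTop ℕ∞) g) (a b : ℝ) (i : ℕ) (v : ℝ) :
    iteratedDeriv i (fun v => a * f v + b * g v) v = a * iteratedDeriv i f v + b * iteratedDeriv i g v := by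
  have hle : ((i : ℕ) : WithTop ℕ∞) ≤ ((⊤ : ℕ∞) : WithTop ℕ∞) := by exact_mod_cast le_top
  rw [iteratedDeriv_fun_add ((contDiff_const.mul hf).contDiffAt.of_le hle)
    ((contDiff_const.mul hg).contDiffAt.of_le hle),
    iteratedDeriv_const_mul_field, iteratedDeriv_const_mul_field]

/-- the sequence of blocks -/
theorem exists_blocks : ∃ (P : ℕ → ℝ → ℝ) (J : ℕ → Finset ℝ) (r ε : ℕ → ℝ),
    (∀ m, Good (J m) (r m / 2) (ε m) (P m)) ∧ (∀ m, 0 < r m) ∧ (∀ m, r m ≤ 1) ∧ Antitone r ∧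
    Tendsto ε atTop (𝓝 0) ∧ (∀ m, ∀ p ∈ J m, 1 < p - 20 * r m ∧ p + 20 * r m < 2) ∧
    (∀ δ : ℝ, 0 < δ → ∀ᶠ m in atTop, ∀ i ≤ 4, ∀ v, 1 ≤ v → v ≤ 2 →
      |iteratedDeriv i (P (m + 1)) v - iteratedDeriv i (P m) v| ≤ δ) ∧
    (∀ M : ℕ, ∀ᶠ m in atTop, ∀ a b, (a = m ∨ a = m + 1) → (b = m ∨ b = m + 1) →
      ∀ p ∈ J a, ∀ p' ∈ J b, ∀ i j l : ℤ, |i| ≤ M → |j| ≤ M → ∀ y y' : ℝ,
        |y - p| ≤ 20 * r a → |y' - p'| ≤ 20 * r b → (3 : ℝ) ^ i * 2 ^ l * y = 5 ^ j * y' →
        i = 0 ∧ j = 0 ∧ l = 0 ∧ p = p') := by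
  classical
  -- joints
  have hJ := fun j : ℕ => exists_good (1 / ((j : ℝ) + 1)) (by positivity)
  choose J hJ1 hJ2 using hJ
  -- radii
  set K : ℕ → Finset ℝ := fun j => (Finset.range (j + 3)).biUnion J with hK
  have hJK : ∀ i j : ℕ, i < j + 3 → J i ⊆ K j := by
    intro i j hij p hp
    simp only [hK, Finset.mem_biUnion, Finset.mem_range]
    exact ⟨i, hij, hp⟩
  have hKA : ∀ j, ∀ p ∈ K j, Admi p ∧ 1 < p ∧ p < 2 := by
    intro j p hp
    simp only [hK, Finset.mem_biUnion] at hp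
    obtain ⟨i, _, hi⟩ := hp
    exact hJ1 i p hi
  have hsep := fun j : ℕ => separation (K j) (hKA j) j
  choose s hs0 hs1 hs2 using hsep
  let r : ℕ → ℝ := fun j => Nat.rec (min (s 0 / 20) 1) (fun j x => min x (s (j + 1) / 20)) j
  have hr_succ : ∀ j, r (j + 1) = min (r j) (s (j + 1) / 20) := fun j => rfl
  have hr0 : ∀ j, 0 < r j := by
    intro j
    induction j with
    | zero => show 0 < min (s 0 / 20) 1; exact lt_min (by linarith [hs0 0]) one_pos
    | succ j ih => rw [hr_succ]; exact lt_min ih (by linarith [hs0 (j + 1)])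
  have hr_anti : Antitone r := antitone_nat_of_succ_le fun j => by
    rw [hr_succ]; exact min_le_left _ _
  have hr1 : ∀ j, r j ≤ 1 := fun j => (hr_anti (Nat.zero_le j)).trans (min_le_right _ _)
  have hrs : ∀ j, 20 * r j ≤ s j := by
    intro j
    cases j with
    | zero =>
      show 20 * (min (s 0 / 20) 1) ≤ s 0
      have := min_le_left (s 0 / 20) 1
      linarith
    | succ j =>
      have : r (j + 1) ≤ s (j + 1) / 20 := by rw [hr_succ]; exact min_le_right _ _
      linarith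
  -- the functions `Q j`
  have hQ := fun j : ℕ => hJ2 j (r j / 2) (by linarith [hr0 j])
  choose Q hQ using hQ
  -- differences
  have hD : ∀ j : ℕ, ∃ D : ℝ, 0 ≤ D ∧ ∀ i ≤ 4, ∀ v, 1 ≤ v → v ≤ 2 →
      |iteratedDeriv i (Q (j + 1)) v - iteratedDeriv i (Q j) v| ≤ D := by
    intro j
    obtain ⟨C1, hC1, h1⟩ := exists_iter_bound (hQ (j + 1)).smooth 4
    obtain ⟨C2, hC2, h2⟩ := exists_iter_bound (hQ j).smooth 4
    refine ⟨C1 + C2, by positivity, fun i hi v hv hv' => ?_⟩
    exact (abs_sub _ _).trans (add_le_add (h1 i hi v hv hv') (h2 i hi v hv hv'))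
  choose D hD0 hD using hD
  set N : ℕ → ℕ := fun j => ⌈D j * ((j : ℝ) + 1)⌉₊ + 1 with hN
  have hNpos : ∀ j, 0 < N j := fun j => Nat.succ_pos _
  have hND : ∀ j, D j * ((j : ℝ) + 1) ≤ N j := by
    intro j
    have : D j * ((j : ℝ) + 1) ≤ ⌈D j * ((j : ℝ) + 1)⌉₊ := Nat.le_ceil _
    simp only [hN]; push_cast; linarith
  set S : ℕ → ℕ := fun j => ∑ i ∈ Finset.range j, N i with hS
  have hS0 : S 0 = 0 := by simp [hS]
  have hSsucc : ∀ j, S (j + 1) = S j + N j := fun j => by simp [hS, Finset.sum_range_succ]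
  have hSm : StrictMono S := strictMono_nat_of_lt_succ fun j => by
    rw [hSsucc]; have := hNpos j; omega
  -- the interpolation parameter
  set t : ℕ → ℝ := fun m => ((m : ℝ) - S (idx S m)) / N (idx S m) with ht
  have ht0 : ∀ m, 0 ≤ t m := by
    intro m
    have : (S (idx S m) : ℝ) ≤ m := by exact_mod_cast idx_le hS0 m
    simp only [ht]
    apply div_nonneg (by linarith) (by positivity)
  have ht1 : ∀ m, t m ≤ 1 := by
    intro m
    have h1 := lt_idx_succ hSm m
    rw [hSsucc] at h1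
    have h2 : (m : ℝ) ≤ S (idx S m) + N (idx S m) := by exact_mod_cast h1.le
    have h3 : (0 : ℝ) < N (idx S m) := by exact_mod_cast hNpos _
    simp only [ht]
    rw [div_le_one h3]; linarith
  set P : ℕ → ℝ → ℝ := fun m v => (1 - t m) * Q (idx S m) v + t m * Q (idx S m + 1) v with hP
  refine ⟨P, fun m => J (idx S m) ∪ J (idx S m + 1), fun m => r (idx S m),
    fun m => 1 / (((idx S m : ℕ) : ℝ) + 1), ?_, fun m => hr0 _, fun m => hr1 _, ?_, ?_, ?_, ?_, ?_⟩
  · intro m
    have g1 : Good (J (idx S m) ∪ J (idx S m + 1)) (r (idx S m) / 2)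
        (1 / (((idx S m : ℕ) : ℝ) + 1)) (Q (idx S m)) :=
      (hQ _).mono Finset.subset_union_left le_rfl le_rfl
    have g2 : Good (J (idx S m) ∪ J (idx S m + 1)) (r (idx S m) / 2)
        (1 / (((idx S m : ℕ) : ℝ) + 1)) (Q (idx S m + 1)) := by
      refine (hQ _).mono Finset.subset_union_right ?_ ?_
      · have := hr_anti (Nat.le_succ (idx S m))
        linarith [this, show r (idx S m).succ = r (idx S m + 1) from rfl]
      · push_cast
        gcongr
        linarith
    exact g1.convex g2 (ht0 m) (ht1 m)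
  · intro a b hab
    exact hr_anti (idx_mono hS0 hSm hab)
  · have h1 : Tendsto (fun j : ℕ => 1 / ((j : ℝ) + 1)) atTop (𝓝 0) :=
      tendsto_one_div_add_atTop_nhds_zero_nat
    exact h1.comp (idx_tendsto hSm)
  · intro m p hp
    have hpK : p ∈ K (idx S m) := by
      rcases Finset.mem_union.1 hp with h | h
      · exact hJK _ _ (by omega) h
      · exact hJK _ _ (by omega) h
    have h1 := hs1 (idx S m) p hpK
    have h2 := hrs (idx S m)
    constructor <;> linarith [h1.1, h1.2]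
  · intro δ hδ
    obtain ⟨j0, hj0⟩ := exists_nat_gt (1 / δ)
    filter_upwards [(idx_tendsto hSm).eventually_ge_atTop j0] with m hm i hi v hv hv'
    set j := idx S m with hj
    have hNj : (0 : ℝ) < N j := by exact_mod_cast hNpos _
    -- the difference is `(1/N) (Q (j+1) - Q j)`
    have key : P (m + 1) = fun v => (1 - (t m + 1 / N j)) * Q j v + (t m + 1 / N j) * Q (j + 1) v := by
      rcases idx_succ hS0 hSm m with ⟨h1, h2⟩ | ⟨h1, h2⟩
      · have e1 : t (m + 1) = t m + 1 / N j := by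
          simp only [ht]
          rw [h2, ← hj]; push_cast; field_simp; ring
        funext v
        simp only [hP]
        rw [h2, ← hj, e1]
      · have e1 : t m + 1 / N j = 1 := by
          simp only [ht]
          rw [← hj] at h1 ⊢
          rw [hSsucc] at h1
          have : (m : ℝ) + 1 = S j + N j := by exact_mod_cast h1
          field_simp; linarith
        have e2 : t (m + 1) = 0 := by
          simp only [ht]
          rw [h2, ← h1]; push_cast; simp
        funext v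
        rw [e1]
        simp only [hP]
        rw [e2, h2, ← hj]; ring
    rw [key]
    have e3 : P m = fun v => (1 - t m) * Q j v + t m * Q (j + 1) v := rfl
    rw [e3, iter_comb (hQ j).smooth (hQ (j + 1)).smooth, iter_comb (hQ j).smooth (hQ (j + 1)).smooth]
    have e4 : (1 - (t m + 1 / (N j : ℝ))) * iteratedDeriv i (Q j) v +
        (t m + 1 / N j) * iteratedDeriv i (Q (j + 1)) v -
        ((1 - t m) * iteratedDeriv i (Q j) v + t m * iteratedDeriv i (Q (j + 1)) v) =
        (1 / N j) * (iteratedDeriv i (Q (j + 1)) v - iteratedDeriv i (Q j) v) := by ring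
    rw [e4, abs_mul, abs_of_pos (by positivity : (0 : ℝ) < 1 / N j)]
    have e5 := hD j i hi v hv hv'
    have e6 := hND j
    have hjj0 : (j0 : ℝ) ≤ j := by exact_mod_cast hm
    have hj1 : 1 / δ ≤ (j : ℝ) + 1 := by linarith
    have hj2 : 1 ≤ δ * ((j : ℝ) + 1) := by
      rw [div_le_iff₀ hδ] at hj1; linarith
    calc 1 / (N j : ℝ) * |iteratedDeriv i (Q (j + 1)) v - iteratedDeriv i (Q j) v|
        ≤ 1 / (N j : ℝ) * D j := by gcongr
      _ ≤ δ := by
        rw [one_div, inv_mul_le_iff₀ hNj]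
        have : D j ≤ D j * (δ * ((j : ℝ) + 1)) := le_mul_of_one_le_right (hD0 j) hj2
        calc D j ≤ D j * (δ * ((j : ℝ) + 1)) := this
          _ = δ * (D j * ((j : ℝ) + 1)) := by ring
          _ ≤ δ * N j := by gcongr
          _ = N j * δ := by ring
  · intro M
    filter_upwards [(idx_tendsto hSm).eventually_ge_atTop M] with m hm a b ha hb p hp p' hp' i j l
      hi hj y y' hy hy' heq
    set j0 := idx S m with hj0
    have hidx : ∀ a, (a = m ∨ a = m + 1) → idx S a = j0 ∨ idx S a = j0 + 1 := by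
      rintro a (rfl | rfl)
      · left; rfl
      · rcases idx_succ hS0 hSm m with ⟨_, h2⟩ | ⟨_, h2⟩
        · left; rw [h2]
        · right; rw [h2]
    have hmemK : ∀ a, (a = m ∨ a = m + 1) → ∀ p ∈ J (idx S a) ∪ J (idx S a + 1), p ∈ K j0 := by
      intro a ha p hp
      rcases hidx a ha with h | h <;> rw [h] at hp <;> rcases Finset.mem_union.1 hp with h' | h'
      · exact hJK _ _ (by omega) h'
      · exact hJK _ _ (by omega) h'
      · exact hJK _ _ (by omega) h'
      · exact hJK _ _ (by omega) h'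
    have hrad : ∀ a, (a = m ∨ a = m + 1) → 20 * r (idx S a) ≤ s j0 := by
      intro a ha
      have h1 : r (idx S a) ≤ r j0 := hr_anti (by rcases hidx a ha with h | h <;> omega)
      linarith [hrs j0]
    have hM : (M : ℤ) ≤ (j0 : ℤ) := by exact_mod_cast hm
    exact hs2 j0 p (hmemK a ha p hp) p' (hmemK b hb p' hp') i j l (hi.trans hM) (hj.trans hM) y y'
      (hy.trans (hrad a ha)) (hy'.trans (hrad b hb)) heq

end Pool.Agent.Germ.Beta
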