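import Pool.Agent.Helper92.Germ.B5

/-!
Gluing of the blocks (for R7 `exists_beta` of MP_91c48b_an).
-/

open Filter Topology Set

namespace Pool.Agent.Germ.Beta

/-- `⌊log₂ u⌋` -/
noncomputable def lg (u : ℝ) : ℕ := Nat.log 2 ⌊u⌋₊

lemma lg_eq {u : ℝ} {k : ℕ} (h1 : (2 : ℝ) ^ k ≤ u) (h2 : u < 2 ^ (k + 1)) : lg u = k := by
  unfold lg
  have hu : 0 ≤ u := le_trans (by positivity) h1
  rw [Nat.log_eq_iff]
  · constructor
    · apply Nat.le_floor; push_cast; exact h1
    · rw [Nat.floor_lt hu]; push_cast; exact h2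
  · right
    refine ⟨by norm_num, ?_⟩
    have h3 : 1 ≤ ⌊u⌋₊ := Nat.le_floor (by
      push_cast
      exact le_trans (one_le_pow₀ (by norm_num)) h1)
    omega

lemma lg_zero {u : ℝ} (h : u < 2) : lg u = 0 := by
  unfold lg
  rw [Nat.log_eq_zero_iff]
  left
  rcases le_total 0 u with hu | hu
  · rw [Nat.floor_lt hu]; exact_mod_cast h
  · rw [Nat.floor_of_nonpos hu]; norm_num

lemma lg_spec {u : ℝ} (h : 1 ≤ u) : (2 : ℝ) ^ lg u ≤ u ∧ u < 2 ^ (lg u + 1) := by
  have hu : 0 ≤ u := by linarith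
  have h3 : 1 ≤ ⌊u⌋₊ := Nat.le_floor (by push_cast; exact h)
  constructor
  · have := Nat.pow_log_le_self 2 (show ⌊u⌋₊ ≠ 0 by omega)
    have h4 : ((2 ^ Nat.log 2 ⌊u⌋₊ : ℕ) : ℝ) ≤ (⌊u⌋₊ : ℝ) := by exact_mod_cast this
    push_cast at h4
    exact h4.trans (Nat.floor_le hu)
  · have := Nat.lt_pow_succ_log_self (b := 2) (by norm_num) ⌊u⌋₊
    have h4 : u < ((2 ^ (Nat.log 2 ⌊u⌋₊ + 1) : ℕ) : ℝ) := (Nat.floor_lt hu).1 this
    push_cast at h4
    exact h4

lemma lg_tendsto : Tendsto lg atTop atTop := by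
  rw [tendsto_atTop]
  intro k
  filter_upwards [eventually_ge_atTop ((2 : ℝ) ^ k)] with u hu
  have h1 : 1 ≤ u := le_trans (one_le_pow₀ (by norm_num)) hu
  have h2 := (lg_spec h1).2
  by_contra hcon
  push Not at hcon
  have : (2 : ℝ) ^ (lg u + 1) ≤ 2 ^ k := pow_le_pow_right₀ (by norm_num) hcon
  linarith

/-- the glued function -/
noncomputable def glue (P : ℕ → ℝ → ℝ) (u : ℝ) : ℝ := P (lg u) (u / 2 ^ lg u) / 2 ^ lg u

/-- data to be glued -/
structure Data (P : ℕ → ℝ → ℝ) (J : ℕ → Finset ℝ) (r ε : ℕ → ℝ) : Prop where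
  good : ∀ k, Good (J k) (r k / 2) (ε k) (P k)
  rpos : ∀ k, 0 < r k
  rle : ∀ k, r k ≤ 1
  anti : Antitone r
  eps : Tendsto ε atTop (𝓝 0)
  joints : ∀ k, ∀ p ∈ J k, 1 < p - 20 * r k ∧ p + 20 * r k < 2
  rbig : ∀ᶠ k : ℕ in atTop, 1 / r k ≤ (2 : ℝ) ^ ((k : ℝ) / 8)
  big : ∀ᶠ k : ℕ in atTop, ∀ i ≤ 7, ∀ v, 1 ≤ v → v ≤ 2 →
    |iteratedDeriv i (P k) v| ≤ (2 : ℝ) ^ ((k : ℝ) / 8)
  slow : ∀ δ : ℝ, 0 < δ → ∀ᶠ k in atTop, ∀ i ≤ 4, ∀ v, 1 ≤ v → v ≤ 2 →
      |iteratedDeriv i (P (k + 1)) v - iteratedDeriv i (P k) v| ≤ δ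

section
variable {P : ℕ → ℝ → ℝ} {J : ℕ → Finset ℝ} {r ε : ℕ → ℝ}

lemma Data.left (D : Data P J r ε) (k : ℕ) {v : ℝ} (hv : v ≤ 1 + r k) : P k v = 2 - v := by
  rcases le_total v 1 with h | h
  · exact (D.good k).left v h
  · obtain ⟨α, γ, hαγ⟩ := (D.good k).aff 0 (1 + r k) (fun p hp => by
      left
      have := (D.joints k p hp).1
      have := D.rpos k
      linarith)
    have hr := D.rpos k
    have e0 := hαγ 0 le_rfl (by linarith)
    have e1 := hαγ 1 (by norm_num) (by linarith)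
    rw [(D.good k).left 0 (by norm_num)] at e0
    rw [(D.good k).left 1 le_rfl] at e1
    rw [hαγ v (by linarith) hv]
    have hγ : γ = 2 := by linarith
    have hα : α = -1 := by linarith
    rw [hα, hγ]; ring

lemma Data.right (D : Data P J r ε) (k : ℕ) {v : ℝ} (hv : 2 - r k ≤ v) : P k v = 1 - v / 4 := by
  rcases le_total 2 v with h | h
  · exact (D.good k).right v h
  · obtain ⟨α, γ, hαγ⟩ := (D.good k).aff (2 - r k) 3 (fun p hp => by
      right
      have := (D.joints k p hp).2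
      have := D.rpos k
      linarith)
    have hr := D.rpos k
    have e0 := hαγ 2 (by linarith) (by norm_num)
    have e1 := hαγ 3 (by linarith) le_rfl
    rw [(D.good k).right 2 (by norm_num)] at e0
    rw [(D.good k).right 3 (by norm_num)] at e1
    rw [hαγ v hv (by linarith)]
    have hα : α = -(1/4) := by linarith
    have hγ : γ = 1 := by linarith
    rw [hα, hγ]; ring

lemma Data.formula (D : Data P J r ε) (k : ℕ) {u : ℝ}
    (h1 : k = 0 ∨ (2 : ℝ) ^ k ≤ u + 2 ^ k * r (k + 1) / 2)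
    (h2 : u ≤ 2 ^ (k + 1) + 2 ^ k * r (k + 1) / 2) :
    glue P u = P k (u / 2 ^ k) / 2 ^ k := by
  have hrp := D.rpos (k + 1)
  have hr1 := D.rle (k + 1)
  have h2k : (0 : ℝ) < 2 ^ k := by positivity
  rcases lt_or_ge u (2 ^ k) with hA | hA
  · -- `u < 2^k`
    rcases Nat.eq_zero_or_pos k with hk | hk
    · subst hk
      unfold glue
      rw [lg_zero (by norm_num at hA; linarith)]
    · have h1' : (2 : ℝ) ^ k ≤ u + 2 ^ k * r (k + 1) / 2 := by
        rcases h1 with h | h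
        · omega
        · exact h
      obtain ⟨k', rfl⟩ : ∃ k', k = k' + 1 := ⟨k - 1, by omega⟩
      have h2k' : (0 : ℝ) < 2 ^ k' := by positivity
      have hpow : (2 : ℝ) ^ (k' + 1) = 2 * 2 ^ k' := by ring
      have hlow : (2 : ℝ) ^ k' ≤ u := by
        have : (2 : ℝ) ^ (k' + 1) * r (k' + 1 + 1) ≤ 2 ^ (k' + 1) * 1 := by gcongr
        rw [hpow] at h1' this hA
        nlinarith
      unfold glue
      rw [lg_eq hlow hA]
      have hv : 2 - r k' ≤ u / 2 ^ k' := by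
        rw [le_div_iff₀ h2k']
        have hra : r (k' + 1 + 1) ≤ r k' := D.anti (by omega)
        rw [hpow] at h1'
        nlinarith
      rw [D.right k' hv, (D.good (k' + 1)).left (u / 2 ^ (k' + 1)) (by
        rw [div_le_one (by positivity)]; exact hA.le), hpow]
      field_simp
      ring
  rcases lt_or_ge u (2 ^ (k + 1)) with hB | hB
  · unfold glue
    rw [lg_eq hA hB]
  · have hup : u < 2 ^ (k + 1 + 1) := by
      have : (2 : ℝ) ^ k * r (k + 1) ≤ 2 ^ k * 1 := by gcongr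
      have e1 : (2 : ℝ) ^ (k + 1) = 2 * 2 ^ k := by ring
      have e2 : (2 : ℝ) ^ (k + 1 + 1) = 4 * 2 ^ k := by ring
      rw [e1] at h2
      rw [e2]
      nlinarith
    unfold glue
    rw [lg_eq hB hup]
    have e1 : (2 : ℝ) ^ (k + 1) = 2 * 2 ^ k := by ring
    have hv : u / 2 ^ (k + 1) ≤ 1 + r (k + 1) := by
      rw [div_le_iff₀ (by positivity), e1]
      rw [e1] at h2
      nlinarith
    rw [D.left (k + 1) hv, (D.good k).right (u / 2 ^ k) (by
      rw [le_div_iff₀ h2k]; rw [e1] at hB; exact hB), e1]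
    field_simp
    ring

lemma Data.ev_formula (D : Data P J r ε) (u : ℝ) :
    glue P =ᶠ[𝓝 u] fun x => P (lg u) (x / 2 ^ lg u) / 2 ^ lg u := by
  have hrp := D.rpos (lg u + 1)
  have h2k : (0 : ℝ) < 2 ^ lg u := by positivity
  have hd : (0 : ℝ) < 2 ^ lg u * r (lg u + 1) / 2 := by positivity
  rcases lt_or_ge u 2 with h | h
  · have h0 : lg u = 0 := lg_zero h
    filter_upwards [Iio_mem_nhds h] with x hx
    apply D.formula
    · left; exact h0
    · rw [h0] at hd ⊢
      have : x < 2 := hx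
      norm_num at hd ⊢
      linarith
  · have hs := lg_spec (by linarith : (1 : ℝ) ≤ u)
    have e1 : Ioo (u - 2 ^ lg u * r (lg u + 1) / 2) (u + 2 ^ lg u * r (lg u + 1) / 2) ∈ 𝓝 u :=
      Ioo_mem_nhds (by linarith) (by linarith)
    filter_upwards [e1] with x hx
    apply D.formula
    · right; linarith [hx.1, hs.1]
    · linarith [hx.2, hs.2]

lemma Data.contDiff (D : Data P J r ε) : ContDiff ℝ ((⊤ : ℕ∞) : WithTop ℕ∞) (glue P) := by
  rw [contDiff_iff_contDiffAt]
  intro u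
  refine ContDiffAt.congr_of_eventuallyEq ?_ (D.ev_formula u)
  exact ((((D.good (lg u)).smooth.comp (contDiff_id.div_const _)).div_const _)).contDiffAt

lemma iter_scale {f : ℝ → ℝ} (hf : ContDiff ℝ ((⊤ : ℕ∞) : WithTop ℕ∞) f) (a b : ℝ) (i : ℕ) (u : ℝ) :
    iteratedDeriv i (fun x => b * f (x / a)) u = b * iteratedDeriv i f (u / a) / a ^ i := by
  have hle : ((i : ℕ) : WithTop ℕ∞) ≤ ((⊤ : ℕ∞) : WithTop ℕ∞) := by exact_mod_cast le_top
  have e1 : (fun x => b * f (x / a)) = fun x => b * (fun y => f (a⁻¹ * y)) x := by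
    funext x; simp only; rw [div_eq_inv_mul]
  rw [e1, iteratedDeriv_const_mul_field, iteratedDeriv_comp_const_mul (hf.of_le hle)]
  simp only
  rw [inv_pow, div_eq_inv_mul u a]
  ring

lemma Data.iter (D : Data P J r ε) (i : ℕ) (u : ℝ) :
    iteratedDeriv i (glue P) u = iteratedDeriv i (P (lg u)) (u / 2 ^ lg u) / (2 ^ lg u) ^ (i + 1) := by
  rw [(D.ev_formula u).iteratedDeriv_eq i]
  have e1 : (fun x => P (lg u) (x / 2 ^ lg u) / 2 ^ lg u) =
      fun x => (1 / 2 ^ lg u) * P (lg u) (x / 2 ^ lg u) := by funext x; ring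
  rw [e1, iter_scale (D.good _).smooth]
  rw [pow_succ]
  field_simp

/-! ### symbol classes -/

lemma SC_of_iter (n : ℕ) : ∀ (m C : ℝ) (f : ℝ → ℝ), ContDiff ℝ n f →
    (∀ i ≤ n, ∀ᶠ u in atTop, |iteratedDeriv i f u| ≤ C * u ^ (m - i)) → SC n m C f := by
  induction n with
  | zero =>
    intro m C f _ h
    have := h 0 le_rfl
    simpa [SC] using this
  | succ n ih =>
    intro m C f hf h
    refine ⟨?_, ?_, ?_⟩
    · have := h 0 (by omega)
      simpa using this
    · have hd : Differentiable ℝ f := hf.differentiable (by simp)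
      exact Eventually.of_forall fun u => hd u
    · apply ih
      · have := contDiff_succ_iff_deriv.1 (by exact_mod_cast hf : ContDiff ℝ ((n : WithTop ℕ∞) + 1) f)
        exact this.2.2
      · intro i hi
        have := h (i + 1) (by omega)
        filter_upwards [this] with u hu
        rw [iteratedDeriv_succ'] at hu
        have e : m - ((i + 1 : ℕ) : ℝ) = m - 1 - i := by push_cast; ring
        rw [e] at hu
        exact hu

end

end Pool.Agent.Germ.Beta
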