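import Pool.Agent.Helper92.Germ.B6

/-!
Properties of the glued function (for R7 `exists_beta` of MP_91c48b_an).
-/

open Filter Topology Set

namespace Pool.Agent.Germ.Beta

section
variable {P : ℕ → ℝ → ℝ} {J : ℕ → Finset ℝ} {r ε : ℕ → ℝ}

lemma bound_aux {u X e : ℝ} (hX : 0 < X) (h1 : X ≤ u) (h2 : u < 2 * X) (he0 : e ≤ 0) (he : -8 ≤ e) :
    X ^ e ≤ 256 * u ^ e := by
  have hu : 0 < u := by linarith
  have e1 : (2 * X) ^ e ≤ u ^ e := Real.rpow_le_rpow_of_nonpos hu h2.le he0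
  rw [Real.mul_rpow (by norm_num) hX.le] at e1
  have e2 : (2 : ℝ) ^ (-8 : ℝ) ≤ 2 ^ e := Real.rpow_le_rpow_of_exponent_le (by norm_num) he
  have e3 : (2 : ℝ) ^ (-8 : ℝ) = 1 / 256 := by
    rw [Real.rpow_neg (by norm_num)]
    norm_num
  rw [e3] at e2
  have hXe : 0 < X ^ e := Real.rpow_pos_of_pos hX e
  nlinarith

lemma nat_le_infty (n : ℕ) : ((n : ℕ) : WithTop ℕ∞) ≤ ((⊤ : ℕ∞) : WithTop ℕ∞) := by
  exact_mod_cast le_top

lemma ev_lg {p : ℕ → Prop} (h : ∀ᶠ k in atTop, p k) : ∀ᶠ u : ℝ in atTop, p (lg u) :=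
  lg_tendsto.eventually h

lemma v_mem {u : ℝ} (h : 1 ≤ u) : 1 ≤ u / 2 ^ lg u ∧ u / 2 ^ lg u ≤ 2 := by
  have hs := lg_spec h
  have h2 : (0 : ℝ) < 2 ^ lg u := by positivity
  rw [le_div_iff₀ h2, div_le_iff₀ h2]
  rw [pow_succ] at hs
  constructor <;> linarith [hs.1, hs.2]

theorem Data.sy (D : Data P J r ε) : Sy 7 (-1 + 1/8) (glue P) := by
  refine ⟨256, SC_of_iter 7 _ _ _ (D.contDiff.of_le (nat_le_infty 7)) ?_⟩
  intro i hi
  filter_upwards [ev_lg D.big, eventually_ge_atTop (1 : ℝ)] with u hu hu1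
  have hs := lg_spec hu1
  have hv := v_mem hu1
  set k := lg u with hk
  have hX : (0 : ℝ) < 2 ^ k := by positivity
  rw [D.iter, abs_div, abs_of_pos (by positivity : (0 : ℝ) < (2 ^ lg u) ^ (i + 1))]
  have h1 := hu i hi _ hv.1 hv.2
  have hb := bound_aux (e := -1 + 1 / 8 - (i : ℝ)) hX hs.1 (by rw [pow_succ] at hs; linarith [hs.2])
    (by have : (0 : ℝ) ≤ i := by positivity
        linarith)
    (by have : (i : ℝ) ≤ 7 := by exact_mod_cast hi
        linarith)
  refine le_trans ?_ hb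
  have e1 : ((2 : ℝ) ^ k) ^ (-1 + 1 / 8 - (i : ℝ)) = (2 : ℝ) ^ ((k : ℝ) / 8) / (2 ^ k) ^ (i + 1) := by
    rw [show (-1 + 1 / 8 - (i : ℝ)) = 1 / 8 - ((i + 1 : ℕ) : ℝ) by push_cast; ring,
      Real.rpow_sub hX, Real.rpow_natCast, ← Real.rpow_natCast 2 k,
      ← Real.rpow_mul (by norm_num : (0:ℝ) ≤ 2)]
    congr 2
    ring
  rw [e1, ← hk]
  gcongr

theorem Data.lim0 (D : Data P J r ε) : Tendsto (fun u => u * glue P u) atTop (𝓝 1) := by
  have h0 : Tendsto (fun u : ℝ => 2 * ε (lg u)) atTop (𝓝 0) := by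
    have := (D.eps.comp lg_tendsto).const_mul 2
    simpa using this
  rw [tendsto_iff_norm_sub_tendsto_zero]
  refine squeeze_zero' (Eventually.of_forall fun _ => norm_nonneg _) ?_ h0
  filter_upwards [eventually_ge_atTop (1 : ℝ)] with u hu1
  have hv := v_mem hu1
  have h2 : (0 : ℝ) < 2 ^ lg u := by positivity
  have hc := (D.good (lg u)).close0 _ hv.1 hv.2
  set v := u / 2 ^ lg u with hvdef
  have hv0 : 0 < v := by linarith [hv.1]
  have e1 : u * glue P u - 1 = v * (P (lg u) v - 1 / v) := by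
    unfold glue
    rw [← hvdef, mul_sub, mul_one_div_cancel hv0.ne']
    rw [hvdef]; ring
  rw [e1, Real.norm_eq_abs, abs_mul, abs_of_pos hv0]
  nlinarith [abs_nonneg (P (lg u) v - 1 / v), hv.2]

theorem Data.lim1 (D : Data P J r ε) : Tendsto (fun u => u ^ 2 * deriv (glue P) u) atTop (𝓝 (-1)) := by
  have h0 : Tendsto (fun u : ℝ => 4 * ε (lg u)) atTop (𝓝 0) := by
    have := (D.eps.comp lg_tendsto).const_mul 4
    simpa using this
  rw [tendsto_iff_norm_sub_tendsto_zero]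
  refine squeeze_zero' (Eventually.of_forall fun _ => norm_nonneg _) ?_ h0
  filter_upwards [eventually_ge_atTop (1 : ℝ)] with u hu1
  have hv := v_mem hu1
  have h2 : (0 : ℝ) < 2 ^ lg u := by positivity
  have hc := (D.good (lg u)).close1 _ hv.1 hv.2
  have hi := D.iter 1 u
  rw [iteratedDeriv_one, iteratedDeriv_one] at hi
  set v := u / 2 ^ lg u with hvdef
  have hv0 : 0 < v := by linarith [hv.1]
  have e1 : u ^ 2 * deriv (glue P) u - -1 = v ^ 2 * (deriv (P (lg u)) v + 1 / v ^ 2) := by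
    rw [hi, mul_add, mul_one_div_cancel (by positivity)]
    rw [hvdef]
    field_simp
    ring
  rw [e1, Real.norm_eq_abs, abs_mul, abs_of_pos (by positivity)]
  have : v ^ 2 ≤ 4 := by nlinarith [hv.1, hv.2]
  nlinarith [abs_nonneg (deriv (P (lg u)) v + 1 / v ^ 2), sq_nonneg v]

/-! ### the integral -/

lemma Data.cont (D : Data P J r ε) : Continuous (glue P) := D.contDiff.continuous

lemma Data.int_block (D : Data P J r ε) (k : ℕ) :
    ∫ x in ((2 : ℝ) ^ k)..(2 ^ (k + 1)), glue P x = Real.log 2 := by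
  have h2k : (0 : ℝ) < 2 ^ k := by positivity
  have hle : (2 : ℝ) ^ k ≤ 2 ^ (k + 1) := pow_le_pow_right₀ (by norm_num) (by omega)
  have e1 : ∫ x in ((2 : ℝ) ^ k)..(2 ^ (k + 1)), glue P x =
      ∫ x in ((2 : ℝ) ^ k)..(2 ^ (k + 1)), (1 / 2 ^ k) * P k (x / 2 ^ k) := by
    apply intervalIntegral.integral_congr
    intro x hx
    rw [uIcc_of_le hle] at hx
    have hr := D.rpos (k + 1)
    show glue P x = (1 / 2 ^ k) * P k (x / 2 ^ k)
    rw [D.formula k (Or.inr (by nlinarith [hx.1])) (by nlinarith [hx.2])]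
    ring
  rw [e1, intervalIntegral.integral_const_mul, intervalIntegral.integral_comp_div _ h2k.ne']
  rw [div_self h2k.ne', show (2 : ℝ) ^ (k + 1) / 2 ^ k = 2 by rw [pow_succ]; field_simp,
    (D.good k).int, smul_eq_mul]
  field_simp

lemma Data.int_pow (D : Data P J r ε) (k : ℕ) :
    ∫ x in (1 : ℝ)..(2 ^ k), glue P x = k * Real.log 2 := by
  induction k with
  | zero => simp
  | succ k ih =>
    rw [← intervalIntegral.integral_add_adjacent_intervals
      (D.cont.intervalIntegrable 1 (2 ^ k)) (D.cont.intervalIntegrable _ _), ih, D.int_block]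
    push_cast; ring

theorem Data.int_lim (D : Data P J r ε) :
    ∃ L, Tendsto (fun u => (∫ v in (1:ℝ)..u, glue P v) - Real.log u) atTop (𝓝 L) := by
  refine ⟨0, ?_⟩
  have h0 : Tendsto (fun u : ℝ => ε (lg u)) atTop (𝓝 0) := D.eps.comp lg_tendsto
  rw [tendsto_zero_iff_norm_tendsto_zero]
  refine squeeze_zero' (Eventually.of_forall fun _ => norm_nonneg _) ?_ h0
  filter_upwards [eventually_ge_atTop (1 : ℝ)] with u hu1
  have hs := lg_spec hu1
  set k := lg u with hk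
  have h2k : (0 : ℝ) < 2 ^ k := by positivity
  have hr := D.rpos (k + 1)
  have hlog : ∫ x in ((2 : ℝ) ^ k)..u, 1 / x = Real.log u - k * Real.log 2 := by
    rw [integral_one_div]
    · rw [Real.log_div (by linarith) h2k.ne', Real.log_pow]
    · rw [uIcc_of_le hs.1]
      intro h
      linarith [h.1]
  have hint1 : IntervalIntegrable (fun v : ℝ => 1 / v) MeasureTheory.volume (2 ^ k) u := by
    apply ContinuousOn.intervalIntegrable
    intro x hx
    rw [uIcc_of_le hs.1] at hx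
    have hx0 : x ≠ 0 := by linarith [hx.1]
    exact (continuousAt_const.div continuousAt_id hx0).continuousWithinAt
  have e1 : (∫ v in (1:ℝ)..u, glue P v) - Real.log u =
      ∫ x in ((2 : ℝ) ^ k)..u, (glue P x - 1 / x) := by
    rw [intervalIntegral.integral_sub (D.cont.intervalIntegrable _ _) hint1, hlog,
      ← intervalIntegral.integral_add_adjacent_intervals
      (D.cont.intervalIntegrable 1 (2 ^ k)) (D.cont.intervalIntegrable _ _), D.int_pow]
    ring
  rw [e1]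
  have e2 := intervalIntegral.norm_integral_le_of_norm_le_const (a := (2 : ℝ) ^ k) (b := u)
    (f := fun x : ℝ => glue P x - 1 / x) (C := ε k / 2 ^ k) (by
      intro x hx
      rw [uIoc_of_le hs.1] at hx
      have hx0 : 0 < x := by linarith [hx.1]
      have hx2 : x ≤ 2 ^ (k + 1) := hx.2.trans hs.2.le
      have ev : 1 ≤ x / 2 ^ k := by rw [le_div_iff₀ h2k]; linarith [hx.1]
      have ev' : x / 2 ^ k ≤ 2 := by rw [div_le_iff₀ h2k]; rw [pow_succ] at hx2; linarith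
      have hc := (D.good k).close0 _ ev ev'
      show ‖glue P x - 1 / x‖ ≤ _
      rw [D.formula k (Or.inr (by nlinarith [hx.1])) (by nlinarith)]
      have e3 : P k (x / 2 ^ k) / 2 ^ k - 1 / x = (P k (x / 2 ^ k) - 1 / (x / 2 ^ k)) / 2 ^ k := by
        field_simp
      rw [e3, norm_div, Real.norm_eq_abs, Real.norm_eq_abs, abs_of_pos h2k]
      gcongr)
  refine e2.trans ?_
  have hε : 0 ≤ ε k := (abs_nonneg _).trans ((D.good k).close0 1 le_rfl (by norm_num))
  rw [abs_of_nonneg (by linarith [hs.1])]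
  have e4 : u - 2 ^ k ≤ 2 ^ k := by rw [pow_succ] at hs; linarith [hs.2]
  calc ε k / 2 ^ k * (u - 2 ^ k) ≤ ε k / 2 ^ k * 2 ^ k := by gcongr
    _ = ε k := by field_simp

/-! ### the defect of homogeneity -/

lemma Data.slow' (D : Data P J r ε) (s : ℕ) : ∀ δ : ℝ, 0 < δ → ∀ᶠ k in atTop, ∀ i ≤ 4, ∀ v, 1 ≤ v →
    v ≤ 2 → |iteratedDeriv i (P k) v - iteratedDeriv i (P (k - s)) v| ≤ δ := by
  induction s with
  | zero =>
    intro δ hδ
    filter_upwards with k i _ v _ _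
    simp [hδ.le]
  | succ s ih =>
    intro δ hδ
    have h1 := ih (δ / 2) (by linarith)
    have h2 := (tendsto_sub_atTop_nat (s + 1)).eventually (D.slow (δ / 2) (by linarith))
    filter_upwards [h1, h2, eventually_ge_atTop (s + 1)] with k hk1 hk2 hk3 i hi v hv hv'
    have a1 := hk1 i hi v hv hv'
    have a2 := hk2 i hi v hv hv'
    rw [show k - (s + 1) + 1 = k - s by omega] at a2
    have : iteratedDeriv i (P k) v - iteratedDeriv i (P (k - (s + 1))) v =
        (iteratedDeriv i (P k) v - iteratedDeriv i (P (k - s)) v) +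
        (iteratedDeriv i (P (k - s)) v - iteratedDeriv i (P (k - (s + 1))) v) := by ring
    rw [this]
    refine (abs_add_le _ _).trans ?_
    linarith

lemma lg_div {u : ℝ} {s : ℕ} (h : (2 : ℝ) ^ s ≤ u) : s ≤ lg u ∧ lg (u / 2 ^ s) = lg u - s := by
  have h1 : 1 ≤ u := le_trans (one_le_pow₀ (by norm_num)) h
  have hs := lg_spec h1
  have h2 : s ≤ lg u := by
    have : (2 : ℝ) ^ s < 2 ^ (lg u + 1) := lt_of_le_of_lt h hs.2
    have := (pow_lt_pow_iff_right₀ (by norm_num : (1 : ℝ) < 2)).1 this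
    omega
  refine ⟨h2, lg_eq ?_ ?_⟩
  · rw [le_div_iff₀ (by positivity), ← pow_add, Nat.sub_add_cancel h2]; exact hs.1
  · rw [div_lt_iff₀ (by positivity), ← pow_add, show lg u - s + 1 + s = lg u + 1 by omega]
    exact hs.2

lemma Data.defect_ev (D : Data P J r ε) {u : ℝ} {s : ℕ} (h : (2 : ℝ) ^ s ≤ u) :
    (fun x => 4 ^ s * glue P x - 2 ^ s * glue P (x / 2 ^ s)) =ᶠ[𝓝 u]
      fun x => (4 ^ s / 2 ^ lg u) * (fun y => 1 * P (lg u) y + (-1) * P (lg u - s) y) (x / 2 ^ lg u) := by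
  obtain ⟨h1, h2⟩ := lg_div h
  have e1 := D.ev_formula u
  have e2 := D.ev_formula (u / 2 ^ s)
  have hc : Tendsto (fun x : ℝ => x / 2 ^ s) (𝓝 u) (𝓝 (u / 2 ^ s)) :=
    (continuous_id.div_const _).tendsto u
  have e3 := hc.eventually e2
  filter_upwards [e1, e3] with x hx1 hx2
  rw [hx1, hx2, h2]
  have e4 : x / 2 ^ s / 2 ^ (lg u - s) = x / 2 ^ lg u := by
    rw [div_div, ← pow_add, show s + (lg u - s) = lg u by omega]
  rw [e4]
  have e5 : (2 : ℝ) ^ lg u = 2 ^ s * 2 ^ (lg u - s) := by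
    rw [← pow_add, show s + (lg u - s) = lg u by omega]
  have e6 : (4 : ℝ) ^ s = 2 ^ s * 2 ^ s := by rw [← mul_pow]; norm_num
  have e7 : (2 : ℝ) ^ s * (P (lg u - s) (x / 2 ^ lg u) / 2 ^ (lg u - s)) =
      4 ^ s / 2 ^ lg u * P (lg u - s) (x / 2 ^ lg u) := by
    rw [e5, e6]; field_simp
  rw [e7]; ring

lemma Data.defect_iter (D : Data P J r ε) {u : ℝ} {s : ℕ} (h : (2 : ℝ) ^ s ≤ u) (i : ℕ) :
    iteratedDeriv i (fun x => 4 ^ s * glue P x - 2 ^ s * glue P (x / 2 ^ s)) u =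
      4 ^ s * (iteratedDeriv i (P (lg u)) (u / 2 ^ lg u) -
        iteratedDeriv i (P (lg u - s)) (u / 2 ^ lg u)) / (2 ^ lg u) ^ (i + 1) := by
  rw [(D.defect_ev h).iteratedDeriv_eq i]
  rw [iter_scale (f := fun y => 1 * P (lg u) y + (-1) * P (lg u - s) y)
    ((contDiff_const.mul (D.good _).smooth).add (contDiff_const.mul (D.good _).smooth)),
    iter_comb (D.good _).smooth (D.good _).smooth]
  rw [pow_succ]
  field_simp
  ring

theorem Data.so (D : Data P J r ε) (s : ℕ) :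
    So 4 (-1) (fun u => 4 ^ s * glue P u - 2 ^ s * glue P (u / 2 ^ s)) := by
  intro C hC
  apply SC_of_iter
  · have h1 := D.contDiff.of_le (nat_le_infty 4)
    exact (contDiff_const.mul h1).sub (contDiff_const.mul (h1.comp (contDiff_id.div_const _)))
  · intro i hi
    filter_upwards [ev_lg (D.slow' s (C / (256 * 4 ^ s)) (by positivity)),
      eventually_ge_atTop (1 : ℝ), eventually_ge_atTop ((2 : ℝ) ^ s)] with u hu hu1 hus
    have hs := lg_spec hu1
    have hv := v_mem hu1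
    rw [D.defect_iter hus]
    set k := lg u with hk
    have hX : (0 : ℝ) < 2 ^ k := by positivity
    have h1 := hu i hi _ hv.1 hv.2
    have hb := bound_aux (e := -1 - (i : ℝ)) hX hs.1 (by rw [pow_succ] at hs; linarith [hs.2])
      (by have : (0 : ℝ) ≤ i := by positivity
          linarith)
      (by have : (i : ℝ) ≤ 4 := by exact_mod_cast hi
          linarith)
    rw [abs_div, abs_mul, abs_of_pos (by positivity : (0 : ℝ) < 4 ^ s),
      abs_of_pos (by positivity : (0 : ℝ) < (2 ^ k) ^ (i + 1))]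
    have e1 : ((2 : ℝ) ^ k) ^ (-1 - (i : ℝ)) = 1 / (2 ^ k) ^ (i + 1) := by
      rw [show (-1 - (i : ℝ)) = -((i + 1 : ℕ) : ℝ) by push_cast; ring, Real.rpow_neg hX.le,
        Real.rpow_natCast, one_div]
    rw [e1] at hb
    calc 4 ^ s * |iteratedDeriv i (P k) (u / 2 ^ k) - iteratedDeriv i (P (k - s)) (u / 2 ^ k)| /
          (2 ^ k) ^ (i + 1)
        ≤ 4 ^ s * (C / (256 * 4 ^ s)) / (2 ^ k) ^ (i + 1) := by gcongr
      _ = C / 256 * (1 / (2 ^ k) ^ (i + 1)) := by field_simp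
      _ ≤ C / 256 * (256 * u ^ (-1 - (i : ℝ))) := by gcongr
      _ = C * u ^ (-1 - (i : ℝ)) := by ring

theorem Data.defect_zero (D : Data P J r ε) {κ : ℕ → ℕ} (hκ0 : κ 0 = 0) (hκ : StrictMono κ)
    {Pb : ℕ → ℝ → ℝ} (hP : ∀ k, P k = Pb (idx κ k)) (s : ℕ) :
    ∀ᶠ u in atTop, (∀ m, ¬ ((2 : ℝ) ^ κ m < u ∧ u < 2 ^ (κ m + s))) →
        4 ^ s * glue P u - 2 ^ s * glue P (u / 2 ^ s) = 0 := by
  filter_upwards [eventually_ge_atTop (1 : ℝ), eventually_ge_atTop ((2 : ℝ) ^ s)] with u hu1 hus hm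
  have hs := lg_spec hu1
  have e1 := (D.defect_ev hus).eq_of_nhds
  simp only at e1
  rw [e1]
  set k := lg u with hk
  have hX : (0 : ℝ) < 2 ^ k := by positivity
  set m := idx κ k with hmdef
  have h1 : κ m ≤ k := idx_le hκ0 k
  have h2 : k < κ (m + 1) := lt_idx_succ hκ k
  rcases le_or_gt (κ m + s) k with h | h
  · have : idx κ (k - s) = m := idx_eq hκ0 hκ (by omega) (by omega)
    have e2 : P (k - s) = P k := by rw [hP, hP, this]
    rw [e2]; ring
  · have e3 : u < 2 ^ (κ m + s) := lt_of_lt_of_le hs.2 (pow_le_pow_right₀ (by norm_num) h)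
    have e4 : u ≤ 2 ^ κ m := by
      by_contra hcon
      push Not at hcon
      exact hm m ⟨hcon, e3⟩
    have e5 : (2 : ℝ) ^ κ m ≤ 2 ^ k := pow_le_pow_right₀ (by norm_num) h1
    have e6 : u = 2 ^ k := by linarith [hs.1]
    have e7 : u / 2 ^ k = 1 := by rw [e6]; field_simp
    rw [e7, (D.good k).left 1 le_rfl, (D.good (k - s)).left 1 le_rfl]; ring

/-! ### exactness -/

lemma Data.room (D : Data P J r ε) (c : ℝ) : ∀ᶠ k : ℕ in atTop, c ≤ 2 ^ k * r (k + 1) / 2 := by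
  have h1 := (tendsto_add_atTop_nat 1).eventually D.rbig
  have h2 : Tendsto (fun k : ℕ => (2 : ℝ) ^ ((7 / 8 : ℝ) * (k : ℝ) - 9 / 8)) atTop atTop := by
    apply (tendsto_rpow_atTop_of_base_gt_one 2 one_lt_two).comp
    apply tendsto_atTop_add_const_right
    exact (tendsto_natCast_atTop_atTop).const_mul_atTop (by norm_num)
  filter_upwards [h1, h2.eventually_ge_atTop c] with k hk1 hk2
  refine hk2.trans ?_
  have hr := D.rpos (k + 1)
  have hr' : 1 / (2 : ℝ) ^ (((k + 1 : ℕ) : ℝ) / 8) ≤ r (k + 1) := by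
    rw [one_div_le (by positivity) hr]; exact hk1
  have e1 : (2 : ℝ) ^ ((7 / 8 : ℝ) * (k : ℝ) - 9 / 8) =
      2 ^ k * (1 / (2 : ℝ) ^ (((k + 1 : ℕ) : ℝ) / 8)) / 2 := by
    rw [← Real.rpow_natCast 2 k, one_div, ← Real.rpow_neg (by norm_num), ← Real.rpow_add (by norm_num)]
    rw [← Real.rpow_sub_one (by norm_num)]
    congr 1
    push_cast; ring
  rw [e1]
  gcongr

end

end Pool.Agent.Germ.Beta
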